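import Mathlib

/-!
# Races between words for an i.i.d. source on a finite alphabet: definitions
-/

set_option autoImplicit false

namespace Pool.Agent.Q289.Race

open MeasureTheory

/-- a probability vector `p = (p_1, …, p_s)` -/
structure ProbVec (s : ℕ) where
  p : Fin s → ℝ
  nonneg : ∀ i, 0 ≤ p i
  sum_one : ∑ i, p i = 1

variable {s : ℕ}

/-- `p_i > 0` for every `i` -/
def ProbVec.FullSupport (v : ProbVec s) : Prop := ∀ i, 0 < v.p i

/-- `p_i = 1/s` for every `i` -/
def ProbVec.IsUniform (v : ProbVec s) : Prop := ∀ i, v.p i = 1 / s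

/-- the law of one letter -/
noncomputable def ProbVec.letter (v : ProbVec s) : PMF (Fin s) :=
  PMF.ofFintype (fun i => ENNReal.ofReal (v.p i)) (by
    rw [← ENNReal.ofReal_sum_of_nonneg fun i _ => v.nonneg i, v.sum_one, ENNReal.ofReal_one])

/-- the law of a source for `p`: an infinite sequence of independent letters; the letter
`X_{n+1}` of the text is the coordinate `x n` -/
noncomputable def ProbVec.source (v : ProbVec s) : Measure (ℕ → Fin s) :=
  Measure.infinitePi fun _ => v.letter.toMeasure

/-- `X_{n-|A|+1} ⋯ X_n = A` (and `n ≥ |A|`) -/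
def EndsAt (A : List (Fin s)) (x : ℕ → Fin s) (n : ℕ) : Prop :=
  A.length ≤ n ∧ ∀ (i : ℕ) (h : i < A.length), x (n - A.length + i) = A[i]

/-- `τ_A`, the least `n ≥ |A|` with `X_{n-|A|+1} ⋯ X_n = A` (`∞` if there is none) -/
noncomputable def tau (A : List (Fin s)) (x : ℕ → Fin s) : ℕ∞ :=
  ⨅ n ∈ {n : ℕ | EndsAt A x n}, (n : ℕ∞)

/-- the race probability `Pr(A > B) = Pr(τ_A < τ_B) + ½ Pr(τ_A = τ_B)`, with `τ_A` read off one
source and `τ_B` off another, independent one -/
noncomputable def race (v : ProbVec s) (A B : List (Fin s)) : ℝ :=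
  (v.source.prod v.source).real {z | tau A z.1 < tau B z.2} +
    (1 / 2) * (v.source.prod v.source).real {z | tau A z.1 = tau B z.2}

end Pool.Agent.Q289.Race
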