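import Pool.Agent.Q289.Race.Seq

/-!
# Races between words: separating the expectations by the choice of a parameter
-/

set_option autoImplicit false

namespace Pool.Agent.Q289.Race

open Finset Filter Topology MeasureTheory

/-- number of marked positions among the first `k` -/
def cnt (u : ℕ → Bool) (k : ℕ) : ℕ := ((range k).filter fun l => u l = true).card

/-- the reciprocal of the probability of an ordinary letter -/
noncomputable def mm (α q : ℝ) : ℝ := α + 1 / q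

noncomputable def mono (α : ℝ) (u : ℕ → Bool) (k : ℕ) (q : ℝ) : ℝ := mm α q ^ k * q ^ cnt u k

noncomputable def EE (α : ℝ) (L : ℕ) (u v : ℕ → Bool) (q : ℝ) : ℝ :=
  ∑ i ∈ range L, if v i = true then mono α u (i + 1) q else 0

theorem cnt_succ (u : ℕ → Bool) (k : ℕ) :
    cnt u (k + 1) = cnt u k + if u k = true then 1 else 0 := by
  unfold cnt
  rw [range_add_one, filter_insert]
  split_ifs with h
  · rw [card_insert_of_notMem (by simp)]
  · rfl

theorem cnt_mono (u : ℕ → Bool) {k L : ℕ} (h : k ≤ L) : cnt u k ≤ cnt u L := by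
  obtain ⟨d, rfl⟩ : ∃ d, L = k + d := ⟨L - k, by omega⟩
  induction d with
  | zero => exact le_rfl
  | succ d ih =>
    rw [← add_assoc, cnt_succ]
    have := ih (by omega)
    omega

theorem cnt_sub (u : ℕ → Bool) {k L : ℕ} (h : k ≤ L) : cnt u L ≤ cnt u k + (L - k) := by
  obtain ⟨d, rfl⟩ : ∃ d, L = k + d := ⟨L - k, by omega⟩
  induction d with
  | zero => simp
  | succ d ih =>
    rw [← add_assoc, cnt_succ]
    have := ih (by omega)
    split_ifs <;> omega

section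

variable {α : ℝ} (hα : 2 ^ 40 ≤ α) {q : ℝ} (hq2 : 2 ≤ q) (hq3 : q ≤ 3)

include hα hq2

omit hα in
theorem mm_gt : α < mm α q := by
  unfold mm
  have : 0 < 1 / q := by positivity
  linarith

theorem mm_big : (2 : ℝ) ^ 40 ≤ mm α q := hα.trans (mm_gt hq2).le

theorem mm_pos : 0 < mm α q := lt_of_lt_of_le (by norm_num) (mm_big hα hq2)

theorem mono_pos (u : ℕ → Bool) (k : ℕ) : 0 < mono α u k q := by
  unfold mono
  have := mm_pos hα hq2
  positivity

theorem mono_ge (u : ℕ → Bool) (k : ℕ) : α ^ k ≤ mono α u k q := by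
  unfold mono
  have h1 : α ^ k ≤ mm α q ^ k :=
    pow_le_pow_left₀ (by linarith [(by norm_num : (0 : ℝ) ≤ 2 ^ 40)]) (mm_gt hq2).le k
  have h2 : 1 ≤ q ^ cnt u k := one_le_pow₀ (by linarith)
  have h3 : 0 ≤ mm α q ^ k := pow_nonneg (mm_pos hα hq2).le k
  nlinarith

theorem mono_le_mono (u : ℕ → Bool) {k L : ℕ} (h : k ≤ L) :
    mono α u k q ≤ mono α u L q * (mm α q)⁻¹ ^ (L - k) := by
  have hm := mm_pos hα hq2
  unfold mono
  have h1 : mm α q ^ L = mm α q ^ k * mm α q ^ (L - k) := by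
    rw [← pow_add]; congr 1; omega
  have h2 : q ^ cnt u k ≤ q ^ cnt u L := pow_le_pow_right₀ (by linarith) (cnt_mono u h)
  have h3 : mm α q ^ (L - k) * (mm α q)⁻¹ ^ (L - k) = 1 := by
    rw [← mul_pow, mul_inv_cancel₀ hm.ne', one_pow]
  calc mm α q ^ k * q ^ cnt u k ≤ mm α q ^ k * q ^ cnt u L :=
        mul_le_mul_of_nonneg_left h2 (by positivity)
    _ = mm α q ^ L * q ^ cnt u L * (mm α q)⁻¹ ^ (L - k) := by
        rw [h1]
        calc mm α q ^ k * q ^ cnt u L = mm α q ^ k * q ^ cnt u L * 1 := by ring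
          _ = mm α q ^ k * q ^ cnt u L * (mm α q ^ (L - k) * (mm α q)⁻¹ ^ (L - k)) := by rw [h3]
          _ = _ := by ring

theorem inv_mm_le : (mm α q)⁻¹ ≤ 1 / 2 ^ 40 := by
  rw [← one_div]
  exact one_div_le_one_div_of_le (by norm_num) (mm_big hα hq2)

theorem term_nonneg (u v : ℕ → Bool) (i : ℕ) :
    0 ≤ (if v i = true then mono α u (i + 1) q else 0) := by
  split_ifs
  · exact (mono_pos hα hq2 u _).le
  · exact le_rfl

theorem EE_ge {L : ℕ} (u v : ℕ → Bool) (hv : v L = true) :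
    mono α u (L + 1) q ≤ EE α (L + 1) u v q := by
  unfold EE
  rw [sum_range_succ, if_pos hv]
  linarith [sum_nonneg (s := range L) fun i _ => term_nonneg hα hq2 u v i]

theorem low_sum (L : ℕ) (u v : ℕ → Bool) :
    ∑ i ∈ range L, ((L - i : ℕ) : ℝ) * (if v i = true then mono α u (i + 1) q else 0) ≤
      mono α u (L + 1) q * (2 / 2 ^ 40) := by
  have hm := mm_pos hα hq2
  have h0 : 0 ≤ (mm α q)⁻¹ := (inv_pos.2 hm).le
  have hρ := inv_mm_le hα hq2
  have h1 : ∀ i ∈ range L, ((L - i : ℕ) : ℝ) * (if v i = true then mono α u (i + 1) q else 0) ≤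
      mono α u (L + 1) q * (((L - i : ℕ) : ℝ) * (mm α q)⁻¹ ^ (L - i)) := by
    intro i hi
    rw [mem_range] at hi
    have h2 : (if v i = true then mono α u (i + 1) q else 0) ≤ mono α u (i + 1) q := by
      split_ifs
      · exact le_rfl
      · exact (mono_pos hα hq2 u _).le
    have h3 := mono_le_mono hα hq2 u (k := i + 1) (L := L + 1) (by omega)
    rw [show L + 1 - (i + 1) = L - i by omega] at h3
    calc ((L - i : ℕ) : ℝ) * (if v i = true then mono α u (i + 1) q else 0)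
        ≤ ((L - i : ℕ) : ℝ) * (mono α u (L + 1) q * (mm α q)⁻¹ ^ (L - i)) :=
          mul_le_mul_of_nonneg_left (h2.trans h3) (by positivity)
      _ = _ := by ring
  refine (sum_le_sum h1).trans ?_
  rw [← mul_sum]
  refine mul_le_mul_of_nonneg_left ?_ (mono_pos hα hq2 u _).le
  have := geom_aux' h0 (hρ.trans (by norm_num)) L
  linarith

theorem EE_le {L : ℕ} (u v : ℕ → Bool) : EE α (L + 1) u v q ≤ 2 * mono α u (L + 1) q := by
  unfold EE
  rw [sum_range_succ]
  have h1 : ∑ i ∈ range L, (if v i = true then mono α u (i + 1) q else 0) ≤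
      ∑ i ∈ range L, ((L - i : ℕ) : ℝ) * (if v i = true then mono α u (i + 1) q else 0) := by
    refine sum_le_sum fun i hi => ?_
    rw [mem_range] at hi
    have h2 : (1 : ℝ) ≤ ((L - i : ℕ) : ℝ) := by
      have : 1 ≤ L - i := by omega
      exact_mod_cast this
    have := term_nonneg hα hq2 u v i
    nlinarith
  have h2 := low_sum hα hq2 L u v
  have h3 : (if v L = true then mono α u (L + 1) q else 0) ≤ mono α u (L + 1) q := by
    split_ifs
    · exact le_rfl
    · exact (mono_pos hα hq2 u _).le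
  have h4 := mono_pos hα hq2 u (L + 1)
  have h5 : mono α u (L + 1) q * (2 / 2 ^ 40) ≤ mono α u (L + 1) q * 1 :=
    mul_le_mul_of_nonneg_left (by norm_num) h4.le
  linarith

theorem mono_hasDerivAt (u : ℕ → Bool) (k : ℕ) :
    HasDerivAt (fun q => mono α u k q) (mono α u k q * ((cnt u k - k * (1 / (q * mm α q))) / q)) q := by
  have hq0 : q ≠ 0 := by positivity
  have hm := mm_pos hα hq2
  have h1 : HasDerivAt (fun q => mm α q) (-(1 / q ^ 2)) q := by
    unfold mm
    have := (hasDerivAt_inv hq0).const_add α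
    refine (this.congr_of_eventuallyEq ?_).congr_deriv ?_
    · exact Eventually.of_forall fun x => by simp
    · ring
  have h2 := (h1.pow k).mul ((hasDerivAt_id q).pow (cnt u k))
  unfold mono
  refine h2.congr_deriv ?_
  simp only [id]
  have e1 : ∀ j : ℕ, (j : ℝ) * mm α q ^ (j - 1) = j * mm α q ^ j / mm α q := by
    intro j
    rcases Nat.eq_zero_or_pos j with h | h
    · subst h; simp
    · obtain ⟨i, rfl⟩ : ∃ i, j = i + 1 := ⟨j - 1, by omega⟩
      rw [Nat.add_sub_cancel, pow_succ]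
      field_simp
  have e2 : ∀ j : ℕ, (j : ℝ) * q ^ (j - 1) = j * q ^ j / q := by
    intro j
    rcases Nat.eq_zero_or_pos j with h | h
    · subst h; simp
    · obtain ⟨i, rfl⟩ : ∃ i, j = i + 1 := ⟨j - 1, by omega⟩
      rw [Nat.add_sub_cancel, pow_succ]
      field_simp
  have e1' := e1 k
  have e2' := e2 (cnt u k)
  calc (k : ℝ) * mm α q ^ (k - 1) * -(1 / q ^ 2) * q ^ cnt u k +
        mm α q ^ k * ((cnt u k : ℝ) * q ^ (cnt u k - 1) * 1)
      = (k * mm α q ^ k / mm α q) * -(1 / q ^ 2) * q ^ cnt u k +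
        mm α q ^ k * ((cnt u k : ℝ) * q ^ cnt u k / q * 1) := by rw [e1', e2']
    _ = _ := by
      field_simp
      ring

theorem EE_hasDerivAt (L : ℕ) (u v : ℕ → Bool) :
    HasDerivAt (fun q => EE α L u v q) (∑ i ∈ range L, if v i = true then
      mono α u (i + 1) q * ((cnt u (i + 1) - ((i + 1 : ℕ) : ℝ) * (1 / (q * mm α q))) / q) else 0) q := by
  unfold EE
  refine HasDerivAt.fun_sum fun i _ => ?_
  split_ifs
  · exact mono_hasDerivAt hα hq2 u (i + 1)
  · exact hasDerivAt_const _ _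

theorem deriv_near (L : ℕ) (u v : ℕ → Bool) :
    |q * (∑ i ∈ range (L + 1), if v i = true then
      mono α u (i + 1) q * ((cnt u (i + 1) - ((i + 1 : ℕ) : ℝ) * (1 / (q * mm α q))) / q) else 0) -
      (cnt u (L + 1) - ((L + 1 : ℕ) : ℝ) * (1 / (q * mm α q))) * EE α (L + 1) u v q| ≤
      mono α u (L + 1) q * (2 / 2 ^ 40) := by
  have hm := mm_big hα hq2
  have hq0 : 0 < q := by linarith
  set η : ℝ := 1 / (q * mm α q) with hη
  have hη0 : 0 ≤ η := by
    have := mm_pos hα hq2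
    positivity
  have hη1 : η ≤ 1 := by
    rw [hη, div_le_one (by have := mm_pos hα hq2; positivity)]
    nlinarith
  have e : q * (∑ i ∈ range (L + 1), if v i = true then
      mono α u (i + 1) q * ((cnt u (i + 1) - ((i + 1 : ℕ) : ℝ) * η) / q) else 0) -
      (cnt u (L + 1) - ((L + 1 : ℕ) : ℝ) * η) * EE α (L + 1) u v q =
      ∑ i ∈ range (L + 1), (if v i = true then mono α u (i + 1) q else 0) *
        ((cnt u (i + 1) - ((i + 1 : ℕ) : ℝ) * η) - (cnt u (L + 1) - ((L + 1 : ℕ) : ℝ) * η)) := by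
    unfold EE
    rw [mul_sum, mul_sum, ← sum_sub_distrib]
    refine sum_congr rfl fun i _ => ?_
    split_ifs
    · field_simp
    · ring
  rw [e, sum_range_succ, sub_self, mul_zero, add_zero]
  refine (abs_sum_le_sum_abs _ _).trans ?_
  refine le_trans (sum_le_sum fun i hi => ?_) (low_sum hα hq2 L u v)
  rw [mem_range] at hi
  rw [abs_mul, abs_of_nonneg (term_nonneg hα hq2 u v i), mul_comm]
  refine mul_le_mul_of_nonneg_right ?_ (term_nonneg hα hq2 u v i)
  have h1 : (cnt u (i + 1) : ℝ) ≤ cnt u (L + 1) := by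
    exact_mod_cast cnt_mono u (by omega)
  have h2 : (cnt u (L + 1) : ℝ) ≤ cnt u (i + 1) + ((L - i : ℕ) : ℝ) := by
    have := cnt_sub u (k := i + 1) (L := L + 1) (by omega)
    rw [show L + 1 - (i + 1) = L - i by omega] at this
    exact_mod_cast this
  have h3 : ((L + 1 : ℕ) : ℝ) = ((i + 1 : ℕ) : ℝ) + ((L - i : ℕ) : ℝ) := by
    rw [← Nat.cast_add]
    congr 1
    omega
  have h4 : (0 : ℝ) ≤ ((L - i : ℕ) : ℝ) := Nat.cast_nonneg _
  rw [h3, abs_le]
  constructor
  · nlinarith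
  · nlinarith

theorem EE_pos {L : ℕ} (u v : ℕ → Bool) (hv : v L = true) : 0 < EE α (L + 1) u v q :=
  lt_of_lt_of_le (mono_pos hα hq2 u _) (EE_ge hα hq2 u v hv)

/-- the logarithmic derivative of the ratio -/
theorem log_deriv (hq3 : q ≤ 3) {L L' : ℕ} (u v u' v' : ℕ → Bool) (hv : v L = true)
    (hv' : v' L' = true) (hL : L' ≤ L) (hc : cnt u (L + 1) < cnt u' (L' + 1)) :
    ∃ D : ℝ, HasDerivAt (fun q => Real.log (EE α (L + 1) u v q) - Real.log (EE α (L' + 1) u' v' q)) D q ∧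
      D ≤ -(1 / 4) := by
  have hq0 : 0 < q := by linarith
  have hm := mm_pos hα hq2
  have hX := EE_pos hα hq2 u v hv
  have hX' := EE_pos hα hq2 u' v' hv'
  have hd := (EE_hasDerivAt hα hq2 (L + 1) u v).log hX.ne'
  have hd' := (EE_hasDerivAt hα hq2 (L' + 1) u' v').log hX'.ne'
  refine ⟨_, hd.sub hd', ?_⟩
  have hn := deriv_near hα hq2 L u v
  have hn' := deriv_near hα hq2 L' u' v'
  have hg := EE_ge hα hq2 u v hv
  have hg' := EE_ge hα hq2 u' v' hv'
  set D := ∑ i ∈ range (L + 1), if v i = true then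
      mono α u (i + 1) q * ((cnt u (i + 1) - ((i + 1 : ℕ) : ℝ) * (1 / (q * mm α q))) / q) else 0
    with hD
  set D' := ∑ i ∈ range (L' + 1), if v' i = true then
      mono α u' (i + 1) q * ((cnt u' (i + 1) - ((i + 1 : ℕ) : ℝ) * (1 / (q * mm α q))) / q) else 0
    with hD'
  set X := EE α (L + 1) u v q with hXdef
  set X' := EE α (L' + 1) u' v' q with hX'def
  set J := (cnt u (L + 1) : ℝ) - ((L + 1 : ℕ) : ℝ) * (1 / (q * mm α q)) with hJ
  set J' := (cnt u' (L' + 1) : ℝ) - ((L' + 1 : ℕ) : ℝ) * (1 / (q * mm α q)) with hJ'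
  have hJJ : J - J' ≤ -1 := by
    have h1 : (cnt u (L + 1) : ℝ) + 1 ≤ cnt u' (L' + 1) := by exact_mod_cast hc
    have h2 : ((L' + 1 : ℕ) : ℝ) ≤ ((L + 1 : ℕ) : ℝ) := by exact_mod_cast (by omega : L' + 1 ≤ L + 1)
    have h3 : 0 ≤ 1 / (q * mm α q) := by positivity
    have h4 : ((L' + 1 : ℕ) : ℝ) * (1 / (q * mm α q)) ≤ ((L + 1 : ℕ) : ℝ) * (1 / (q * mm α q)) :=
      mul_le_mul_of_nonneg_right h2 h3
    rw [hJ, hJ']
    linarith
  have h5 : q * D ≤ (J + 2 / 2 ^ 40) * X := by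
    have := (abs_le.1 hn).2
    have h6 : mono α u (L + 1) q * (2 / 2 ^ 40) ≤ X * (2 / 2 ^ 40) :=
      mul_le_mul_of_nonneg_right hg (by norm_num)
    nlinarith
  have h5' : (J' - 2 / 2 ^ 40) * X' ≤ q * D' := by
    have := (abs_le.1 hn').1
    have h6 : mono α u' (L' + 1) q * (2 / 2 ^ 40) ≤ X' * (2 / 2 ^ 40) :=
      mul_le_mul_of_nonneg_right hg' (by norm_num)
    nlinarith
  have h7 : q * (D / X) ≤ J + 2 / 2 ^ 40 := by
    rw [← mul_div_assoc, div_le_iff₀ hX]
    exact h5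
  have h7' : J' - 2 / 2 ^ 40 ≤ q * (D' / X') := by
    rw [← mul_div_assoc, le_div_iff₀ hX']
    exact h5'
  have h8 : q * (D / X - D' / X') ≤ -1 + 4 / 2 ^ 40 := by
    rw [mul_sub]
    linarith
  by_contra hcon
  push Not at hcon
  have h9 : q * (-(1 / 4)) < q * (D / X - D' / X') := mul_lt_mul_of_pos_left hcon hq0
  have h10 : (-1 : ℝ) + 4 / 2 ^ 40 < -(3 / 4) := by norm_num
  nlinarith

end

section

variable {α : ℝ} (hα : 2 ^ 40 ≤ α)

include hα

/-- bad parameters -/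
def Bad (α : ℝ) (L L' : ℕ) (u v u' v' : ℕ → Bool) : Set ℝ :=
  {q | q ∈ Set.Icc (2 : ℝ) 3 ∧
    |EE α (L + 1) u v q - EE α (L' + 1) u' v' q| ≤ 2 ^ 20 * ((max (L + 1) (L' + 1) : ℕ) : ℝ)}

theorem pow_aux (L : ℕ) : 2 ^ 22 * ((L + 1 : ℕ) : ℝ) * 2 ^ (38 * L + 16) ≤ α ^ (L + 1) := by
  have h1 : ((L + 1 : ℕ) : ℝ) ≤ 2 ^ L := by
    exact_mod_cast (Nat.lt_two_pow_self (n := L))
  have h2 : ((2 : ℝ) ^ 40) ^ (L + 1) ≤ α ^ (L + 1) := pow_le_pow_left₀ (by norm_num) hα _
  refine le_trans ?_ h2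
  calc 2 ^ 22 * ((L + 1 : ℕ) : ℝ) * 2 ^ (38 * L + 16) ≤ 2 ^ 22 * 2 ^ L * 2 ^ (38 * L + 16) := by
        gcongr
    _ = (2 : ℝ) ^ (39 * L + 38) := by
        rw [← pow_add, ← pow_add]
        congr 1
        ring
    _ ≤ ((2 : ℝ) ^ 40) ^ (L + 1) := by
        rw [← pow_mul]
        exact pow_le_pow_right₀ (by norm_num) (by omega)

theorem bad_log {L L' : ℕ} (u v u' v' : ℕ → Bool) (hv : v L = true)
    (hv' : v' L' = true) (hL : L' ≤ L) {q : ℝ} (hq : q ∈ Bad α L L' u v u' v') :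
    |Real.log (EE α (L + 1) u v q) - Real.log (EE α (L' + 1) u' v' q)| ≤
      1 / (2 * 2 ^ (38 * L + 16)) := by
  obtain ⟨⟨hq2, hq3⟩, hb⟩ := hq
  have hX := EE_pos hα hq2 u v hv
  have hX' := EE_pos hα hq2 u' v' hv'
  have hbig : α ^ (L + 1) ≤ EE α (L + 1) u v q :=
    (mono_ge hα hq2 u _).trans (EE_ge hα hq2 u v hv)
  rw [show max (L + 1) (L' + 1) = L + 1 by omega] at hb
  set X := EE α (L + 1) u v q
  set X' := EE α (L' + 1) u' v' q
  have hp := pow_aux hα L
  have hpow : (1 : ℝ) ≤ 2 ^ (38 * L + 16) := one_le_pow₀ (by norm_num)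
  have hc0 : (0 : ℝ) ≤ 2 ^ 22 * ((L + 1 : ℕ) : ℝ) := by positivity
  have h1 : 2 ^ 22 * ((L + 1 : ℕ) : ℝ) ≤ α ^ (L + 1) := by nlinarith
  rw [abs_le] at hb
  have hX'big : α ^ (L + 1) / 2 ≤ X' := by linarith [hb.2]
  have hαp : 0 < α ^ (L + 1) := by
    have : (0 : ℝ) < α := lt_of_lt_of_le (by norm_num) hα
    positivity
  have key : ∀ x y : ℝ, α ^ (L + 1) / 2 ≤ x → α ^ (L + 1) / 2 ≤ y →
      |x - y| ≤ 2 ^ 20 * ((L + 1 : ℕ) : ℝ) →
      Real.log x - Real.log y ≤ 1 / (2 * 2 ^ (38 * L + 16)) := by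
    intro x y hx hy hxy
    have hx0 : 0 < x := by linarith
    have hy0 : 0 < y := by linarith
    have h2 : Real.log x - Real.log y = Real.log (x / y) := (Real.log_div hx0.ne' hy0.ne').symm
    have h3 : Real.log (x / y) ≤ x / y - 1 := Real.log_le_sub_one_of_pos (by positivity)
    have h4 : x / y - 1 = (x - y) / y := by field_simp
    rw [h2]
    refine h3.trans ?_
    rw [h4, div_le_div_iff₀ hy0 (by positivity)]
    have h5 := (abs_le.1 hxy).2
    have h6 : (x - y) * (2 * 2 ^ (38 * L + 16)) ≤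
        (2 ^ 20 * ((L + 1 : ℕ) : ℝ)) * (2 * 2 ^ (38 * L + 16)) :=
      mul_le_mul_of_nonneg_right h5 (by positivity)
    have h7 : (2 ^ 20 * ((L + 1 : ℕ) : ℝ)) * (2 * 2 ^ (38 * L + 16)) ≤ α ^ (L + 1) / 2 := by
      linarith
    linarith
  have hXbig : α ^ (L + 1) / 2 ≤ X := by linarith
  rw [abs_le]
  constructor
  · have := key X' X hX'big hXbig (by rw [abs_sub_comm, abs_le]; exact hb)
    linarith
  · exact key X X' hXbig hX'big (by rw [abs_le]; exact hb)

theorem bad_volume {L L' : ℕ} (u v u' v' : ℕ → Bool) (hv : v L = true)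
    (hv' : v' L' = true) (hL : L' ≤ L) (hc : cnt u (L + 1) < cnt u' (L' + 1)) :
    volume (Bad α L L' u v u' v') ≤ ENNReal.ofReal (4 / 2 ^ (38 * L + 16)) := by
  refine (Real.volume_le_diam _).trans ?_
  refine Metric.ediam_le fun x hx y hy => ?_
  rw [edist_dist]
  refine ENNReal.ofReal_le_ofReal ?_
  -- wlog `x ≤ y`
  have key : ∀ x y : ℝ, x ∈ Bad α L L' u v u' v' → y ∈ Bad α L L' u v u' v' → x ≤ y →
      y - x ≤ 4 / 2 ^ (38 * L + 16) := by
    intro x y hx hy hxy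
    have hder : ∀ q ∈ Set.Icc x y, ∃ D : ℝ, HasDerivAt (fun q =>
        Real.log (EE α (L + 1) u v q) - Real.log (EE α (L' + 1) u' v' q)) D q ∧ D ≤ -(1 / 4) :=
      fun q hq => log_deriv hα (hx.1.1.trans hq.1) (hq.2.trans hy.1.2) u v u' v' hv hv' hL hc
    have hmv := (convex_Icc x y).image_sub_le_mul_sub_of_deriv_le
      (f := fun q => Real.log (EE α (L + 1) u v q) - Real.log (EE α (L' + 1) u' v' q))
      (C := -(1 / 4))
      (fun q hq => by
        obtain ⟨D, h1, _⟩ := hder q hq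
        exact h1.continuousAt.continuousWithinAt)
      (fun q hq => by
        obtain ⟨D, h1, _⟩ := hder q (interior_subset hq)
        exact h1.differentiableAt.differentiableWithinAt)
      (fun q hq => by
        obtain ⟨D, h1, h2⟩ := hder q (interior_subset hq)
        rw [h1.deriv]
        exact h2)
      x (Set.left_mem_Icc.2 hxy) y (Set.right_mem_Icc.2 hxy) hxy
    have h1 := bad_log hα u v u' v' hv hv' hL hx
    have h2 := bad_log hα u v u' v' hv hv' hL hy
    rw [abs_le] at h1 h2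
    have h3 : (4 : ℝ) / 2 ^ (38 * L + 16) = 8 * (1 / (2 * 2 ^ (38 * L + 16))) := by
      field_simp
      norm_num
    rw [h3]
    linarith [h1.1, h1.2, h2.1, h2.2]
  rcases le_total x y with h | h
  · rw [Real.dist_eq, abs_sub_comm, abs_of_nonneg (by linarith)]
    exact key x y hx hy h
  · rw [Real.dist_eq, abs_of_nonneg (by linarith)]
    exact key y x hy hx h

theorem sep_far {q : ℝ} (hq2 : 2 ≤ q) {L L' : ℕ} (u v u' v' : ℕ → Bool) (hv : v L = true)
    (hL : L' < L) (hc : cnt u' (L' + 1) ≤ cnt u (L + 1)) :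
    2 ^ 20 * ((L + 1 : ℕ) : ℝ) < EE α (L + 1) u v q - EE α (L' + 1) u' v' q := by
  have h1 := EE_ge hα hq2 u v hv
  have h2 := EE_le hα hq2 (L := L') u' v'
  have hm := mm_big hα hq2
  have hm0 := mm_pos hα hq2
  have h3 : mono α u' (L' + 1) q ≤ mm α q ^ L * q ^ cnt u (L + 1) := by
    unfold mono
    have h4 : mm α q ^ (L' + 1) ≤ mm α q ^ L :=
      pow_le_pow_right₀ (by linarith [(by norm_num : (1 : ℝ) ≤ 2 ^ 40)]) (by omega)
    have h5 : q ^ cnt u' (L' + 1) ≤ q ^ cnt u (L + 1) := pow_le_pow_right₀ (by linarith) hc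
    exact mul_le_mul h4 h5 (by positivity) (by positivity)
  have h6 : mono α u (L + 1) q = mm α q * (mm α q ^ L * q ^ cnt u (L + 1)) := by
    unfold mono
    rw [pow_succ]; ring
  have h7 := mono_ge hα hq2 u (L + 1)
  have hp := pow_aux hα L
  have hpow : (1 : ℝ) ≤ 2 ^ (38 * L + 16) := one_le_pow₀ (by norm_num)
  have hc0 : (0 : ℝ) < 2 ^ 22 * ((L + 1 : ℕ) : ℝ) := by positivity
  have h8 : 2 ^ 22 * ((L + 1 : ℕ) : ℝ) ≤ α ^ (L + 1) := by nlinarith
  have h9 : 0 < mm α q ^ L * q ^ cnt u (L + 1) := by positivity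
  have h10 : mono α u (L + 1) q / 2 ≤ EE α (L + 1) u v q - EE α (L' + 1) u' v' q := by
    rw [h6] at h1 ⊢
    have h11 : (4 : ℝ) ≤ mm α q := by linarith [(by norm_num : (4 : ℝ) ≤ 2 ^ 40)]
    nlinarith
  have h12 : (0 : ℝ) < ((L + 1 : ℕ) : ℝ) := by positivity
  linarith

omit hα in
theorem cnt_congr {u u' : ℕ → Bool} {k : ℕ} (h : ∀ i < k, u i = u' i) : cnt u k = cnt u' k := by
  unfold cnt
  congr 1
  refine filter_congr fun i hi => ?_
  rw [mem_range] at hi
  rw [h i hi]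

omit hα in
theorem EE_congr {L : ℕ} {u v u' v' : ℕ → Bool} (hu : ∀ i < L, u i = u' i)
    (hv : ∀ i < L, v i = v' i) (q : ℝ) : EE α L u v q = EE α L u' v' q := by
  unfold EE
  refine sum_congr rfl fun i hi => ?_
  rw [mem_range] at hi
  rw [hv i hi]
  unfold mono
  rw [cnt_congr (k := i + 1) (fun j hj => hu j (by omega))]

/-- extension of a finite pattern -/
def extU {L : ℕ} (t : Fin (L + 1) → Bool × Bool) (i : ℕ) : Bool :=
  if h : i < L + 1 then (t ⟨i, h⟩).1 else false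

def extV {L : ℕ} (t : Fin (L + 1) → Bool × Bool) (i : ℕ) : Bool :=
  if h : i < L + 1 then (t ⟨i, h⟩).2 else false

open Classical in
/-- the bad set of a pair of patterns -/
noncomputable def BadT (α : ℝ) (L L' : ℕ)
    (t : (Fin (L + 1) → Bool × Bool) × (Fin (L' + 1) → Bool × Bool)) : Set ℝ :=
  if extV t.1 L = true ∧ extV t.2 L' = true ∧ L' ≤ L ∧
      cnt (extU t.1) (L + 1) < cnt (extU t.2) (L' + 1) then
    Bad α L L' (extU t.1) (extV t.1) (extU t.2) (extV t.2) else ∅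

theorem badT_volume (L L' : ℕ) (t : (Fin (L + 1) → Bool × Bool) × (Fin (L' + 1) → Bool × Bool)) :
    volume (BadT α L L' t) ≤ if L' ≤ L then ENNReal.ofReal (4 / 2 ^ (38 * L + 16)) else 0 := by
  unfold BadT
  split_ifs with h1 h2 h3
  · exact bad_volume hα _ _ _ _ h1.1 h1.2.1 h1.2.2.1 h1.2.2.2
  · exact absurd h1.2.2.1 h2
  · simp
  · simp

omit hα in
theorem real_aux {L L' : ℕ} (h : L' ≤ L) :
    ((4 : ℝ) ^ (L + 1) * 4 ^ (L' + 1)) * (4 / 2 ^ (38 * L + 16)) ≤
      (1 / 2) ^ L * (1 / 2) ^ L' * (1 / 2) ^ 10 := by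
  rw [← pow_add, ← pow_add, ← pow_add, one_div, inv_pow, ← mul_div_assoc,
    div_le_iff₀ (by positivity), ← div_eq_inv_mul, le_div_iff₀ (by positivity)]
  have e : ((4 : ℝ) ^ (L + 1 + (L' + 1)) * 4) * 2 ^ (L + L' + 10) =
      2 ^ (2 * (L + 1 + (L' + 1)) + 2 + (L + L' + 10)) := by
    rw [pow_add 2 (2 * (L + 1 + (L' + 1)) + 2), pow_add 2 (2 * (L + 1 + (L' + 1))), pow_mul]
    norm_num
  rw [e]
  exact pow_le_pow_right₀ (by norm_num) (by omega)

theorem union_volume (L L' : ℕ) : volume (⋃ t, BadT α L L' t) ≤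
    (2⁻¹ : ENNReal) ^ L * (2⁻¹ : ENNReal) ^ L' * (2⁻¹ : ENNReal) ^ 10 := by
  refine (measure_iUnion_fintype_le _ _).trans ?_
  refine (sum_le_sum fun t _ => badT_volume hα L L' t).trans ?_
  rw [sum_const, card_univ]
  split_ifs with h
  · have hcard : Fintype.card ((Fin (L + 1) → Bool × Bool) × (Fin (L' + 1) → Bool × Bool)) =
        4 ^ (L + 1) * 4 ^ (L' + 1) := by
      simp [Fintype.card_prod]
    rw [hcard, nsmul_eq_mul]
    have h2 : ((4 ^ (L + 1) * 4 ^ (L' + 1) : ℕ) : ENNReal) =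
        ENNReal.ofReal (4 ^ (L + 1) * 4 ^ (L' + 1)) := by
      rw [← ENNReal.ofReal_natCast]
      push_cast
      rfl
    rw [h2, ← ENNReal.ofReal_mul (by positivity)]
    refine (ENNReal.ofReal_le_ofReal (real_aux h)).trans (le_of_eq ?_)
    rw [ENNReal.ofReal_mul (by positivity), ENNReal.ofReal_mul (by positivity),
      ENNReal.ofReal_pow (by norm_num), ENNReal.ofReal_pow (by norm_num),
      ENNReal.ofReal_pow (by norm_num)]
    have h3 : ENNReal.ofReal (1 / 2) = 2⁻¹ := by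
      rw [one_div, ENNReal.ofReal_inv_of_pos (by norm_num)]
      simp
    rw [h3]
  · simp

/-- a good parameter exists -/
theorem exists_good : ∃ q ∈ Set.Icc (2 : ℝ) 3, ∀ L L' : ℕ, ∀ u v u' v' : ℕ → Bool,
    v L = true → v' L' = true → L' ≤ L → cnt u (L + 1) < cnt u' (L' + 1) →
    q ∉ Bad α L L' u v u' v' := by
  set S : Set ℝ := ⋃ L, ⋃ L', ⋃ t, BadT α L L' t with hS
  have hvol : volume S < 1 := by
    have h1 : volume S ≤ ∑' L : ℕ, ∑' L' : ℕ,
        (2⁻¹ : ENNReal) ^ L * (2⁻¹ : ENNReal) ^ L' * (2⁻¹ : ENNReal) ^ 10 := by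
      refine (measure_iUnion_le _).trans (ENNReal.tsum_le_tsum fun L => ?_)
      refine (measure_iUnion_le _).trans (ENNReal.tsum_le_tsum fun L' => ?_)
      exact union_volume hα L L'
    have h2 : ∑' L : ℕ, ∑' L' : ℕ,
        (2⁻¹ : ENNReal) ^ L * (2⁻¹ : ENNReal) ^ L' * (2⁻¹ : ENNReal) ^ 10 =
        2 * 2 * (2⁻¹ : ENNReal) ^ 10 := by
      simp only [ENNReal.tsum_mul_right, ENNReal.tsum_mul_left, ENNReal.tsum_geometric,
        ENNReal.one_sub_inv_two, inv_inv]
    rw [h2] at h1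
    refine lt_of_le_of_lt h1 ?_
    have h3 : (2 * 2 * (2⁻¹ : ENNReal) ^ 10) = ENNReal.ofReal (2 * 2 * (1 / 2) ^ 10) := by
      rw [ENNReal.ofReal_mul (by norm_num), ENNReal.ofReal_mul (by norm_num),
        ENNReal.ofReal_pow (by norm_num)]
      have h4 : ENNReal.ofReal (1 / 2) = 2⁻¹ := by
        rw [one_div, ENNReal.ofReal_inv_of_pos (by norm_num)]
        simp
      rw [h4]
      simp
    rw [h3, ← ENNReal.ofReal_one]
    exact (ENNReal.ofReal_lt_ofReal_iff (by norm_num)).2 (by norm_num)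
  have hex : ∃ q ∈ Set.Icc (2 : ℝ) 3, q ∉ S := by
    by_contra hcon
    push Not at hcon
    have h1 : volume (Set.Icc (2 : ℝ) 3) ≤ volume S := measure_mono hcon
    rw [Real.volume_Icc] at h1
    norm_num at h1
    exact absurd hvol (not_lt.2 h1)
  obtain ⟨q, hq, hqS⟩ := hex
  refine ⟨q, hq, fun L L' u v u' v' hv hv' hL hc hbad => hqS ?_⟩
  rw [hS]
  simp only [Set.mem_iUnion]
  set t : Fin (L + 1) → Bool × Bool := fun i => (u i, v i) with ht
  set t' : Fin (L' + 1) → Bool × Bool := fun i => (u' i, v' i) with ht'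
  have e1 : ∀ i < L + 1, u i = extU t i := fun i hi => by simp [extU, ht, hi]
  have e2 : ∀ i < L + 1, v i = extV t i := fun i hi => by simp [extV, ht, hi]
  have e3 : ∀ i < L' + 1, u' i = extU t' i := fun i hi => by simp [extU, ht', hi]
  have e4 : ∀ i < L' + 1, v' i = extV t' i := fun i hi => by simp [extV, ht', hi]
  refine ⟨L, L', (t, t'), ?_⟩
  unfold BadT
  rw [if_pos]
  · refine ⟨hq, ?_⟩
    rw [← EE_congr e1 e2, ← EE_congr e3 e4]
    exact hbad.2
  · refine ⟨?_, ?_, hL, ?_⟩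
    · rw [← e2 L (by omega)]; exact hv
    · rw [← e4 L' (by omega)]; exact hv'
    · rw [← cnt_congr e1, ← cnt_congr e3]; exact hc

end

end Pool.Agent.Q289.Race
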