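import Pool.Agent.Q289.Race.RaceVal
import Pool.Agent.Q289.Race.Sep

/-!
# Races between words: the source without cycles
-/

set_option autoImplicit false

namespace Pool.Agent.Q289.Race

open Finset Filter Topology MeasureTheory

/-- the separation property of a parameter -/
def Good (α q : ℝ) : Prop := ∀ L L' : ℕ, ∀ u v u' v' : ℕ → Bool,
    v L = true → v' L' = true → (L ≠ L' ∨ cnt u (L + 1) ≠ cnt u' (L' + 1)) →
    2 ^ 20 * ((max (L + 1) (L' + 1) : ℕ) : ℝ) < |EE α (L + 1) u v q - EE α (L' + 1) u' v' q|

theorem exists_Good {α : ℝ} (hα : 2 ^ 40 ≤ α) : ∃ q : ℝ, 2 ≤ q ∧ q ≤ 3 ∧ Good α q := by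
  obtain ⟨q, hq, hgood⟩ := exists_good hα
  refine ⟨q, hq.1, hq.2, fun L L' u v u' v' hv hv' hne => ?_⟩
  have key : ∀ L L' : ℕ, ∀ u v u' v' : ℕ → Bool, v L = true → v' L' = true → L' ≤ L →
      (L ≠ L' ∨ cnt u (L + 1) < cnt u' (L' + 1)) →
      2 ^ 20 * ((max (L + 1) (L' + 1) : ℕ) : ℝ) <
        |EE α (L + 1) u v q - EE α (L' + 1) u' v' q| := by
    intro L L' u v u' v' hv hv' hL hne
    by_cases hc : cnt u (L + 1) < cnt u' (L' + 1)
    · have h := hgood L L' u v u' v' hv hv' hL hc
      by_contra hcon
      push Not at hcon
      exact h ⟨hq, hcon⟩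
    · have hLL : L' < L := by
        rcases hne with h | h
        · omega
        · exact absurd h hc
      have h := sep_far hα hq.1 u v u' v' hv hLL (not_lt.1 hc)
      rw [show max (L + 1) (L' + 1) = L + 1 by omega]
      exact lt_of_lt_of_le h (le_abs_self _)
  rcases lt_trichotomy L L' with h | h | h
  · have := key L' L u' v' u v hv' hv h.le (Or.inl h.ne')
    rwa [max_comm, abs_sub_comm] at this
  · subst h
    rcases hne with h | h
    · exact absurd rfl h
    · rcases lt_or_gt_of_ne h with h | h
      · exact key L L u v u' v' hv hv' le_rfl (Or.inr h)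
      · have := key L L u' v' u v hv' hv le_rfl (Or.inr h)
        rwa [abs_sub_comm] at this
  · exact key L L' u v u' v' hv hv' h.le (Or.inl h.ne')

theorem EE_succ (α : ℝ) (L : ℕ) (u v : ℕ → Bool) (q : ℝ) :
    EE α (L + 1) u v q = EE α L u v q + if v L = true then mono α u (L + 1) q else 0 := by
  unfold EE
  rw [sum_range_succ]

theorem dichotomy {α q : ℝ} (hα : 2 ^ 40 ≤ α) (hq2 : 2 ≤ q) (hgood : Good α q) :
    ∀ N L L' : ℕ, L + L' ≤ N → ∀ u v u' v' : ℕ → Bool,
      (∀ F : ℕ → ℝ, ∑ i ∈ range L, (if v i = true then mono α u (i + 1) q else 0) * F (i + 1) =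
        ∑ i ∈ range L', (if v' i = true then mono α u' (i + 1) q else 0) * F (i + 1)) ∨
      1 ≤ |EE α L u v q - EE α L' u' v' q| := by
  intro N
  induction N with
  | zero =>
    intro L L' h u v u' v'
    have h1 : L = 0 := by omega
    have h2 : L' = 0 := by omega
    subst h1; subst h2
    left; intro F; simp
  | succ N ih =>
    intro L L' h u v u' v'
    have hone : ∀ (n : ℕ) (w : ℕ → Bool), 1 ≤ mono α w (n + 1) q := by
      intro n w
      refine le_trans ?_ (mono_ge hα hq2 w (n + 1))
      exact one_le_pow₀ (by linarith [(by norm_num : (1 : ℝ) ≤ 2 ^ 40)])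
    rcases Nat.eq_zero_or_pos L with hL | hL
    · rcases Nat.eq_zero_or_pos L' with hL' | hL'
      · subst hL; subst hL'
        left; intro F; simp
      · subst hL
        obtain ⟨n, rfl⟩ : ∃ n, L' = n + 1 := ⟨L' - 1, by omega⟩
        by_cases hv : v' n = true
        · right
          have h1 := EE_ge hα hq2 u' v' hv
          have h2 := hone n u'
          have h3 : EE α 0 u v q = 0 := by simp [EE]
          rw [h3, zero_sub, abs_neg]
          exact (h2.trans h1).trans (le_abs_self _)
        · rcases ih 0 n (by omega) u v u' v' with h1 | h1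
          · left
            intro F
            rw [h1 F, sum_range_succ, if_neg hv, zero_mul, add_zero]
          · right
            rw [EE_succ, if_neg hv, add_zero]
            exact h1
    · obtain ⟨m, rfl⟩ : ∃ m, L = m + 1 := ⟨L - 1, by omega⟩
      by_cases hvm : v m = true
      · rcases Nat.eq_zero_or_pos L' with hL' | hL'
        · subst hL'
          right
          have h1 := EE_ge hα hq2 u v hvm
          have h2 := hone m u
          have h3 : EE α 0 u' v' q = 0 := by simp [EE]
          rw [h3, sub_zero]
          exact (h2.trans h1).trans (le_abs_self _)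
        · obtain ⟨n, rfl⟩ : ∃ n, L' = n + 1 := ⟨L' - 1, by omega⟩
          by_cases hvn : v' n = true
          · by_cases heq : m = n ∧ cnt u (m + 1) = cnt u' (n + 1)
            · obtain ⟨rfl, hc⟩ := heq
              have hm : mono α u (m + 1) q = mono α u' (m + 1) q := by
                unfold mono; rw [hc]
              rcases ih m m (by omega) u v u' v' with h1 | h1
              · left
                intro F
                rw [sum_range_succ, sum_range_succ, h1 F, if_pos hvm, if_pos hvn, hm]
              · right
                rw [EE_succ, EE_succ, if_pos hvm, if_pos hvn, hm]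
                rwa [add_sub_add_right_eq_sub]
            · right
              have h1 := hgood m n u v u' v' hvm hvn (by
                by_contra hcon
                push Not at hcon
                exact heq hcon)
              have h2 : (1 : ℝ) ≤ 2 ^ 20 * ((max (m + 1) (n + 1) : ℕ) : ℝ) := by
                have h3 : (1 : ℝ) ≤ ((max (m + 1) (n + 1) : ℕ) : ℝ) := by
                  have : 1 ≤ max (m + 1) (n + 1) := by omega
                  exact_mod_cast this
                nlinarith
              linarith
          · rcases ih (m + 1) n (by omega) u v u' v' with h1 | h1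
            · left
              intro F
              rw [h1 F, sum_range_succ _ n, if_neg hvn, zero_mul, add_zero]
            · right
              rw [EE_succ α n, if_neg hvn, add_zero]
              exact h1
      · rcases ih m L' (by omega) u v u' v' with h1 | h1
        · left
          intro F
          rw [sum_range_succ, if_neg hvm, zero_mul, add_zero, h1 F]
        · right
          rw [EE_succ α m, if_neg hvm, add_zero]
          exact h1

namespace Ren

variable {ρ : ℝ} (A B : Ren ρ)

theorem rv_add : A.rv B + B.rv A = 1 := by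
  have hSA : ∀ n, |A.S n| ≤ 1 := fun n => by
    rw [abs_of_nonneg (A.S_nonneg n)]; exact A.S_le_one n
  have hSB : ∀ n, |B.S n| ≤ 1 := fun n => by
    rw [abs_of_nonneg (B.S_nonneg n)]; exact B.S_le_one n
  have s1 : Summable fun m => B.f (m + 1) * (A.S m + A.S (m + 1)) := by
    have := (B.summable_fS hSA).add (B.summable_fS (h := fun n => A.S (n + 1)) fun n => hSA _)
    refine this.congr fun n => ?_
    ring
  have s2 : Summable fun m => A.f (m + 1) * (B.S m + B.S (m + 1)) := by
    have := (A.summable_fS hSB).add (A.summable_fS (h := fun n => B.S (n + 1)) fun n => hSB _)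
    refine this.congr fun n => ?_
    ring
  have h1 : HasSum (fun m => B.f (m + 1) * (A.S m + A.S (m + 1)) +
      A.f (m + 1) * (B.S m + B.S (m + 1))) 2 := by
    have hnn : ∀ m, 0 ≤ B.f (m + 1) * (A.S m + A.S (m + 1)) +
        A.f (m + 1) * (B.S m + B.S (m + 1)) := fun m =>
      add_nonneg (mul_nonneg (B.f_nonneg _) (add_nonneg (A.S_nonneg _) (A.S_nonneg _)))
        (mul_nonneg (A.f_nonneg _) (add_nonneg (B.S_nonneg _) (B.S_nonneg _)))
    rw [hasSum_iff_tendsto_nat_of_nonneg hnn]
    have h : ∀ n, ∑ m ∈ range n, (B.f (m + 1) * (A.S m + A.S (m + 1)) +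
        A.f (m + 1) * (B.S m + B.S (m + 1))) = 2 - 2 * (A.S n * B.S n) := by
      intro n
      induction n with
      | zero => simp [A.S0, B.S0]
      | succ n ih => rw [sum_range_succ, ih, B.step, A.step]; ring
    simp only [h]
    have := ((A.S_tendsto.mul B.S_tendsto).const_mul 2).const_sub 2
    simpa using this
  have h2 := h1.tsum_eq
  rw [s1.tsum_add s2] at h2
  unfold rv
  linarith

end Ren

/-- the source -/
noncomputable def vec (n : ℕ) (q : ℝ) (hq : 2 ≤ q) : ProbVec (n + 1) where
  p := fun i => if i = 0 then (mm n q * q)⁻¹ else (mm n q)⁻¹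
  nonneg := by
    intro i
    have : 0 ≤ mm n q := by unfold mm; positivity
    split_ifs <;> positivity
  sum_one := by
    rw [Fin.sum_univ_succ, if_pos rfl]
    have h1 : ∀ i : Fin n, (if i.succ = 0 then (mm n q * q)⁻¹ else (mm n q)⁻¹) = (mm n q)⁻¹ := by
      intro i
      rw [if_neg (Fin.succ_ne_zero i)]
    rw [sum_congr rfl fun i _ => h1 i, sum_const, card_univ, Fintype.card_fin, nsmul_eq_mul]
    have hm : 0 < mm n q := by
      unfold mm
      have : 0 < 1 / q := by positivity
      positivity
    have hq0 : 0 < q := by linarith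
    have e : mm n q = n + 1 / q := rfl
    field_simp
    rw [e]
    field_simp
    ring

section

variable {n : ℕ} {q : ℝ} (hn : (2 : ℝ) ^ 40 ≤ n) (hq2 : 2 ≤ q)

def uu (A : List (Fin (n + 1))) (i : ℕ) : Bool := decide (A[i]? = some 0)

open Classical in
noncomputable def vv (A : List (Fin (n + 1))) (i : ℕ) : Bool := decide (Border A (i + 1))

theorem vv_iff (A : List (Fin (n + 1))) (i : ℕ) : vv A i = true ↔ Border A (i + 1) := by
  unfold vv
  exact @decide_eq_true_iff _ (Classical.propDecidable _)

include hn

theorem vec_full : (vec n q hq2).FullSupport := by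
  intro i
  have h := mm_pos hn hq2
  have hq0 : 0 < q := by linarith
  change 0 < if i = 0 then (mm n q * q)⁻¹ else (mm n q)⁻¹
  split_ifs <;> positivity

theorem vec_le (i : Fin (n + 1)) : (vec n q hq2).p i ≤ 1 / 2 ^ 20 := by
  have h := mm_pos hn hq2
  have hb := mm_big hn hq2
  have h1 : (mm n q)⁻¹ ≤ 1 / 2 ^ 20 := by
    rw [← one_div]
    exact one_div_le_one_div_of_le (by norm_num) (le_trans (by norm_num) hb)
  change (if i = 0 then (mm n q * q)⁻¹ else (mm n q)⁻¹) ≤ _
  split_ifs
  · refine le_trans ?_ h1
    apply inv_anti₀ h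
    nlinarith
  · exact h1

theorem wt_take (A : List (Fin (n + 1))) {k : ℕ} (hk : k ≤ A.length) :
    (vec n q hq2).wt (A.take k) * mono n (uu A) k q = 1 := by
  have hm := mm_pos hn hq2
  have hq0 : 0 < q := by linarith
  induction k with
  | zero => simp [ProbVec.wt, mono, cnt]
  | succ k ih =>
    have hk' : k < A.length := by omega
    have h1 : A.take (k + 1) = A.take k ++ [A[k]] := by
      rw [List.take_add_one, List.getElem?_eq_getElem hk']
      rfl
    rw [h1, wt_append]
    have h2 : (vec n q hq2).wt [A[k]] = if A[k] = 0 then (mm n q * q)⁻¹ else (mm n q)⁻¹ := by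
      simp [ProbVec.wt, vec]
    have h3 : mono n (uu A) (k + 1) q = mono n (uu A) k q *
        (if A[k] = 0 then mm n q * q else mm n q) := by
      unfold mono
      rw [cnt_succ]
      have h4 : uu A k = decide (A[k] = 0) := by
        unfold uu
        rw [List.getElem?_eq_getElem hk']
        simp
      rw [h4]
      by_cases h5 : A[k] = 0
      · simp only [h5, decide_true, if_true]
        rw [pow_succ, pow_succ]
        ring
      · simp only [h5, decide_false, if_false]
        rw [pow_succ]
        simp
        ring
    rw [h2, h3]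
    have ih' := ih (by omega)
    split_ifs
    · calc (vec n q hq2).wt (List.take k A) * (mm n q * q)⁻¹ * (mono n (uu A) k q * (mm n q * q))
          = ((vec n q hq2).wt (List.take k A) * mono n (uu A) k q) * ((mm n q * q)⁻¹ * (mm n q * q)) := by
            ring
        _ = 1 := by rw [ih', inv_mul_cancel₀ (by positivity), one_mul]
    · calc (vec n q hq2).wt (List.take k A) * (mm n q)⁻¹ * (mono n (uu A) k q * mm n q)
          = ((vec n q hq2).wt (List.take k A) * mono n (uu A) k q) * ((mm n q)⁻¹ * mm n q) := by
            ring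
        _ = 1 := by rw [ih', inv_mul_cancel₀ hm.ne', one_mul]

theorem W_eq (A : List (Fin (n + 1))) {i : ℕ} (hi : i < A.length) :
    (vec n q hq2).W A (i + 1) = if vv A i = true then mono n (uu A) (i + 1) q else 0 := by
  unfold ProbVec.W
  by_cases h : Border A (i + 1)
  · rw [if_pos h, if_pos ((vv_iff A i).2 h)]
    have h1 := wt_take hn hq2 A (k := i + 1) (by omega)
    exact inv_eq_of_mul_eq_one_right h1
  · rw [if_neg h, if_neg (fun h2 => h ((vv_iff A i).1 h2))]

theorem bra_eq (A : List (Fin (n + 1))) (hA : A ≠ []) (F : ℕ → ℝ) :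
    ((vec n q hq2).ren (vec_full hn hq2) (vec_le hn hq2) A hA).bra F =
      ∑ i ∈ range A.length, (if vv A i = true then mono n (uu A) (i + 1) q else 0) * F (i + 1) := by
  unfold Ren.bra
  change ∑ k ∈ range (A.length + 1), (vec n q hq2).W A k * F k = _
  rw [sum_range_succ']
  have h0 : (vec n q hq2).W A 0 = 0 := by
    unfold ProbVec.W
    rw [if_neg]
    intro h
    exact absurd h.1 (by norm_num)
  rw [h0, zero_mul, add_zero]
  refine sum_congr rfl fun i hi => ?_
  rw [mem_range] at hi
  rw [W_eq hn hq2 A hi]

theorem E_eq (A : List (Fin (n + 1))) (hA : A ≠ []) :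
    ((vec n q hq2).ren (vec_full hn hq2) (vec_le hn hq2) A hA).E =
      EE n A.length (uu A) (vv A) q := by
  unfold Ren.E EE
  rw [bra_eq hn hq2]
  refine sum_congr rfl fun i _ => ?_
  rw [mul_one]

/-- the race order is the order of the expectations -/
theorem race_iff (hgood : Good n q) (A B : List (Fin (n + 1))) (hA : A ≠ []) (hB : B ≠ []) :
    1 / 2 < race (vec n q hq2) A B ↔
      EE n A.length (uu A) (vv A) q < EE n B.length (uu B) (vv B) q := by
  -- the strict direction
  have key : ∀ A B : List (Fin (n + 1)), A ≠ [] → B ≠ [] →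
      EE n A.length (uu A) (vv A) q < EE n B.length (uu B) (vv B) q →
      1 / 2 < race (vec n q hq2) A B := by
    intro A B hA hB hlt
    rw [race_eq (vec n q hq2) hA hB (vec_full hn hq2) (vec_le hn hq2)]
    set a := (vec n q hq2).ren (vec_full hn hq2) (vec_le hn hq2) A hA with ha
    set b := (vec n q hq2).ren (vec_full hn hq2) (vec_le hn hq2) B hB with hb
    have hEa : a.E = EE n A.length (uu A) (vv A) q := E_eq hn hq2 A hA
    have hEb : b.E = EE n B.length (uu B) (vv B) q := E_eq hn hq2 B hB
    have hlA := List.length_pos_iff.2 hA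
    have hlB := List.length_pos_iff.2 hB
    obtain ⟨m, hm⟩ : ∃ m, A.length = m + 1 := ⟨A.length - 1, by omega⟩
    obtain ⟨k, hk⟩ : ∃ k, B.length = k + 1 := ⟨B.length - 1, by omega⟩
    have hvA : vv A m = true := by
      rw [vv_iff, ← hm]
      exact border_self hA
    have hvB : vv B k = true := by
      rw [vv_iff, ← hk]
      exact border_self hB
    refine a.beats b (by norm_num) le_rfl ?_
    by_cases heq : m = k ∧ cnt (uu A) (m + 1) = cnt (uu B) (k + 1)
    · left
      refine ⟨?_, ?_, ?_⟩
      · change A.length = B.length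
        omega
      · change (vec n q hq2).wt A = (vec n q hq2).wt B
        have h1 := wt_take hn hq2 A le_rfl
        have h2 := wt_take hn hq2 B le_rfl
        rw [List.take_length] at h1 h2
        have h3 : mono n (uu A) A.length q = mono n (uu B) B.length q := by
          unfold mono
          rw [hm, hk, heq.2, heq.1]
        rw [h3] at h1
        have h4 : mono n (uu B) B.length q ≠ 0 := (mono_pos hn hq2 _ _).ne'
        exact mul_right_cancel₀ h4 (h1.trans h2.symm)
      · rw [hEa, hEb]
        rcases dichotomy hn hq2 hgood (A.length + B.length) A.length B.length le_rfl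
          (uu A) (vv A) (uu B) (vv B) with h | h
        · exfalso
          have h1 := h fun _ => 1
          simp only [mul_one] at h1
          exact hlt.ne h1
        · rw [abs_sub_comm, abs_of_pos (by linarith)] at h
          exact h
    · right
      have h1 := hgood m k (uu A) (vv A) (uu B) (vv B) hvA hvB (by
        by_contra hcon
        push Not at hcon
        exact heq hcon)
      rw [← hm, ← hk] at h1
      rw [abs_sub_comm, abs_of_pos (by linarith)] at h1
      rw [hEa, hEb]
      exact h1
  constructor
  · intro h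
    by_contra hcon
    push Not at hcon
    rcases dichotomy hn hq2 hgood (A.length + B.length) A.length B.length le_rfl
      (uu A) (vv A) (uu B) (vv B) with h1 | h1
    · -- a tie
      rw [race_eq (vec n q hq2) hA hB (vec_full hn hq2) (vec_le hn hq2)] at h
      rw [Ren.rv_tie] at h
      · exact lt_irrefl _ h
      · intro F
        rw [bra_eq hn hq2, bra_eq hn hq2]
        exact h1 F
    · have h2 : EE n B.length (uu B) (vv B) q < EE n A.length (uu A) (vv A) q := by
        refine lt_of_le_of_ne hcon fun h3 => ?_
        rw [h3, sub_self, abs_zero] at h1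
        norm_num at h1
      have h3 := key B A hB hA h2
      rw [race_eq (vec n q hq2) hA hB (vec_full hn hq2) (vec_le hn hq2)] at h
      rw [race_eq (vec n q hq2) hB hA (vec_full hn hq2) (vec_le hn hq2)] at h3
      have h4 := Ren.rv_add ((vec n q hq2).ren (vec_full hn hq2) (vec_le hn hq2) A hA)
        ((vec n q hq2).ren (vec_full hn hq2) (vec_le hn hq2) B hB)
      linarith
  · exact key A B hA hB

theorem vec_nonuniform (hn1 : 1 ≤ n) : ¬ (vec n q hq2).IsUniform := by
  intro h
  have h0 := h 0
  have h1 := h (Fin.succ ⟨0, hn1⟩)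
  rw [← h1] at h0
  have e0 : (vec n q hq2).p 0 = (mm n q * q)⁻¹ := by
    change (if (0 : Fin (n + 1)) = 0 then (mm n q * q)⁻¹ else (mm n q)⁻¹) = _
    rw [if_pos rfl]
  have e1 : (vec n q hq2).p (Fin.succ ⟨0, hn1⟩) = (mm n q)⁻¹ := by
    change (if Fin.succ (⟨0, hn1⟩ : Fin n) = 0 then (mm n q * q)⁻¹ else (mm n q)⁻¹) = _
    rw [if_neg (Fin.succ_ne_zero _)]
  rw [e0, e1] at h0
  have hm := mm_pos hn hq2
  have h2 := inv_injective h0
  nlinarith

end

end Pool.Agent.Q289.Race
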