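import Pool.Agent.Q289.Race.Seq

/-!
# Races between words: the race value
-/

set_option autoImplicit false

namespace Pool.Agent.Q289.Race

open Finset Filter Topology

namespace Ren

variable {ρ : ℝ} (A B : Ren ρ)

/-- the race value -/
noncomputable def rv : ℝ := 1 - (1 / 2) * ∑' m, B.f (m + 1) * (A.S m + A.S (m + 1))

noncomputable def G (k : ℕ) : ℝ := ∑' n, A.g B (n + k) * (B.f n + B.f (n + 1))

theorem g_le (N : ℕ) : A.g B N ≤ A.P := by
  unfold g
  calc ∑ j ∈ range (N + 1), B.f j * A.f (N - j) ≤ ∑ j ∈ range (N + 1), B.f j * A.P :=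
        sum_le_sum fun j _ => mul_le_mul_of_nonneg_left (A.f_le _) (B.f_nonneg _)
    _ = (1 - B.S N) * A.P := by rw [← sum_mul, B.sum_f]
    _ ≤ A.P := by nlinarith [A.hP, B.S_nonneg N]

theorem w_nonneg (n : ℕ) : 0 ≤ B.f n + B.f (n + 1) := add_nonneg (B.f_nonneg _) (B.f_nonneg _)

theorem w_le (n : ℕ) : B.f n + B.f (n + 1) ≤ 2 * B.P := by
  linarith [B.f_le n, B.f_le (n + 1)]

theorem summable_w : Summable fun n => B.f n + B.f (n + 1) :=
  B.summable_f.add ((summable_nat_add_iff 1).2 B.summable_f)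

theorem summable_gw (k : ℕ) : Summable fun n => A.g B (n + k) * (B.f n + B.f (n + 1)) := by
  refine Summable.of_nonneg_of_le (fun n => mul_nonneg (A.g_nonneg B _) (B.w_nonneg n))
    (fun n => ?_) (B.summable_w.mul_left A.P)
  exact mul_le_mul_of_nonneg_right (A.g_le B _) (B.w_nonneg n)

theorem summable_fS {h : ℕ → ℝ} (hb : ∀ n, |h n| ≤ 1) : Summable fun n => B.f (n + 1) * h n := by
  refine Summable.of_norm_bounded ((summable_nat_add_iff 1).2 B.summable_f) fun n => ?_
  rw [Real.norm_eq_abs, abs_mul, abs_of_nonneg (B.f_nonneg _)]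
  exact mul_le_of_le_one_right (B.f_nonneg _) (hb n)

theorem hasSum_self : HasSum (fun m => B.f (m + 1) * (B.S m + B.S (m + 1))) 1 := by
  rw [hasSum_iff_tendsto_nat_of_nonneg
    (fun m => mul_nonneg (B.f_nonneg _) (add_nonneg (B.S_nonneg _) (B.S_nonneg _)))]
  have h : ∀ n, ∑ m ∈ range n, B.f (m + 1) * (B.S m + B.S (m + 1)) = 1 - B.S n ^ 2 := by
    intro n
    induction n with
    | zero => simp [B.S0]
    | succ n ih => rw [sum_range_succ, ih, B.step]; ring
  simp only [h]
  have := (B.S_tendsto.pow 2).const_sub 1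
  simpa using this

theorem rv_eq : A.rv B - 1 / 2 = (1 / 2) * (B.bra (A.G B) - A.bra (A.G B)) := by
  have hSA : ∀ n, |A.S n| ≤ 1 := fun n => by
    rw [abs_of_nonneg (A.S_nonneg n)]; exact A.S_le_one n
  have hSB : ∀ n, |B.S n| ≤ 1 := fun n => by
    rw [abs_of_nonneg (B.S_nonneg n)]; exact B.S_le_one n
  have hD : ∀ n, |A.S n - B.S n| ≤ 1 := fun n => by
    rw [abs_le]
    constructor <;> linarith [A.S_nonneg n, B.S_nonneg n, A.S_le_one n, B.S_le_one n]
  -- step 1
  have s1 : Summable fun m => B.f (m + 1) * (A.S m + A.S (m + 1)) := by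
    have := (B.summable_fS hSA).add (B.summable_fS (h := fun n => A.S (n + 1)) fun n => hSA _)
    refine this.congr fun n => ?_
    ring
  have e1 : A.rv B - 1 / 2 =
      -(1 / 2) * ∑' m, (B.f (m + 1) * (A.S m - B.S m) + B.f (m + 1) * (A.S (m + 1) - B.S (m + 1))) := by
    have h1 : ∑' m, (B.f (m + 1) * (A.S m - B.S m) + B.f (m + 1) * (A.S (m + 1) - B.S (m + 1))) =
        (∑' m, B.f (m + 1) * (A.S m + A.S (m + 1))) - 1 := by
      rw [← B.hasSum_self.tsum_eq, ← s1.tsum_sub B.hasSum_self.summable]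
      refine tsum_congr fun m => ?_
      ring
    rw [h1]
    unfold rv
    ring
  -- step 2: reindex
  have s2 : Summable fun m => B.f (m + 1) * (A.S m - B.S m) := B.summable_fS hD
  have s3 : Summable fun m => B.f (m + 1) * (A.S (m + 1) - B.S (m + 1)) :=
    B.summable_fS (h := fun n => A.S (n + 1) - B.S (n + 1)) fun n => hD _
  have s4 : Summable fun m => B.f m * (A.S m - B.S m) :=
    (summable_nat_add_iff (f := fun m => B.f m * (A.S m - B.S m)) 1).1 s3
  have e2 : ∑' m, (B.f (m + 1) * (A.S m - B.S m) + B.f (m + 1) * (A.S (m + 1) - B.S (m + 1))) =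
      ∑' n, (B.f n + B.f (n + 1)) * (A.S n - B.S n) := by
    rw [s2.tsum_add s3]
    have h1 : ∑' m, B.f (m + 1) * (A.S (m + 1) - B.S (m + 1)) =
        ∑' m, B.f m * (A.S m - B.S m) := by
      have := s4.sum_add_tsum_nat_add 1
      rw [sum_range_one, B.f0, zero_mul, zero_add] at this
      exact this
    rw [h1, ← s2.tsum_add s4]
    refine tsum_congr fun n => ?_
    ring
  -- step 3
  have e3 : ∑' n, (B.f n + B.f (n + 1)) * (A.S n - B.S n) = A.bra (A.G B) - B.bra (A.G B) := by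
    have hA : HasSum (fun n => (B.f n + B.f (n + 1)) * A.bra fun k => A.g B (n + k))
        (A.bra (A.G B)) := by
      unfold bra
      have h1 : (fun n => (B.f n + B.f (n + 1)) * ∑ k ∈ range (A.L + 1), A.W k * A.g B (n + k)) =
          fun n => ∑ k ∈ range (A.L + 1), A.W k * (A.g B (n + k) * (B.f n + B.f (n + 1))) := by
        funext n
        rw [mul_sum]
        refine sum_congr rfl fun k _ => ?_
        ring
      rw [h1]
      exact hasSum_sum fun k _ => ((A.summable_gw B k).hasSum).mul_left _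
    have hB : HasSum (fun n => (B.f n + B.f (n + 1)) * B.bra fun k => A.g B (n + k))
        (B.bra (A.G B)) := by
      unfold bra
      have h1 : (fun n => (B.f n + B.f (n + 1)) * ∑ k ∈ range (B.L + 1), B.W k * A.g B (n + k)) =
          fun n => ∑ k ∈ range (B.L + 1), B.W k * (A.g B (n + k) * (B.f n + B.f (n + 1))) := by
        funext n
        rw [mul_sum]
        refine sum_congr rfl fun k _ => ?_
        ring
      rw [h1]
      exact hasSum_sum fun k _ => ((A.summable_gw B k).hasSum).mul_left _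
    rw [← (hA.sub hB).tsum_eq]
    refine tsum_congr fun n => ?_
    rw [A.diff_S B n]
    ring
  rw [e1, e2, e3]
  ring

theorem dg (N : ℕ) : A.g B (N + 1) - A.g B N =
    ∑ j ∈ range (N + 1), B.f j * (A.f (N - j + 1) - A.f (N - j)) := by
  unfold g
  rw [sum_range_succ _ (N + 1), Nat.sub_self, A.f0, mul_zero, add_zero, ← sum_sub_distrib]
  refine sum_congr rfl fun j hj => ?_
  rw [mem_range] at hj
  rw [show N + 1 - j = N - j + 1 by omega]
  ring

theorem TVg : Summable (fun N => |A.g B (N + 1) - A.g B N|) ∧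
    ∑' N, |A.g B (N + 1) - A.g B N| ≤ A.TV := by
  have hf : Summable fun n => ‖B.f n‖ := by
    simpa [Real.norm_eq_abs, abs_of_nonneg (B.f_nonneg _)] using B.summable_f
  have hd : Summable fun n => ‖|A.f (n + 1) - A.f n|‖ := by
    simpa [Real.norm_eq_abs] using A.summable_df
  have h1 := tsum_mul_tsum_eq_tsum_sum_range_of_summable_norm hf hd
  have h2 := (summable_norm_sum_mul_range_of_summable_norm hf hd)
  have h3 : ∀ N, |A.g B (N + 1) - A.g B N| ≤
      ∑ k ∈ range (N + 1), B.f k * |A.f (N - k + 1) - A.f (N - k)| := by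
    intro N
    rw [A.dg B N]
    refine (abs_sum_le_sum_abs _ _).trans (le_of_eq (sum_congr rfl fun k _ => ?_))
    rw [abs_mul, abs_of_nonneg (B.f_nonneg _)]
  have h4 : Summable fun N => ∑ k ∈ range (N + 1), B.f k * |A.f (N - k + 1) - A.f (N - k)| :=
    Summable.of_norm h2
  have h5 : Summable (fun N => |A.g B (N + 1) - A.g B N|) :=
    Summable.of_nonneg_of_le (fun N => abs_nonneg _) h3 h4
  refine ⟨h5, ?_⟩
  calc ∑' N, |A.g B (N + 1) - A.g B N|
      ≤ ∑' N, ∑ k ∈ range (N + 1), B.f k * |A.f (N - k + 1) - A.f (N - k)| :=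
        h5.tsum_le_tsum h3 h4
    _ = (∑' n, B.f n) * ∑' n, |A.f (n + 1) - A.f n| := h1.symm
    _ = A.TV := by rw [B.hasSum_f.tsum_eq, one_mul]; rfl

theorem G_step (h0 : 0 ≤ ρ) (h1 : ρ ≤ 1 / 8) (k : ℕ) :
    |A.G B (k + 1) - A.G B k| ≤ 6 * A.P * B.P := by
  have hs := A.TVg B
  have hs' : Summable fun n => |A.g B (n + k + 1) - A.g B (n + k)| :=
    (summable_nat_add_iff (f := fun n => |A.g B (n + 1) - A.g B n|) k).2 hs.1
  have hle : ∑' n, |A.g B (n + k + 1) - A.g B (n + k)| ≤ A.TV := by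
    refine le_trans ?_ hs.2
    rw [← hs.1.sum_add_tsum_nat_add k]
    linarith [sum_nonneg (s := range k) fun n _ => abs_nonneg (A.g B (n + 1) - A.g B n)]
  have e : A.G B (k + 1) - A.G B k =
      ∑' n, (A.g B (n + k + 1) - A.g B (n + k)) * (B.f n + B.f (n + 1)) := by
    unfold G
    rw [← (A.summable_gw B (k + 1)).tsum_sub (A.summable_gw B k)]
    refine tsum_congr fun n => ?_
    rw [show n + (k + 1) = n + k + 1 by ring]
    ring
  rw [e]
  have hb : ∀ n, ‖(A.g B (n + k + 1) - A.g B (n + k)) * (B.f n + B.f (n + 1))‖ ≤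
      |A.g B (n + k + 1) - A.g B (n + k)| * (2 * B.P) := by
    intro n
    rw [Real.norm_eq_abs, abs_mul, abs_of_nonneg (B.w_nonneg n)]
    exact mul_le_mul_of_nonneg_left (B.w_le n) (abs_nonneg _)
  have := tsum_of_norm_bounded (hs'.mul_right (2 * B.P)).hasSum hb
  rw [Real.norm_eq_abs, tsum_mul_right] at this
  refine this.trans ?_
  have h2 := A.TV_le h0 h1
  have h3 : (∑' n, |A.g B (n + k + 1) - A.g B (n + k)|) * (2 * B.P) ≤ (3 * A.P) * (2 * B.P) :=
    mul_le_mul_of_nonneg_right (hle.trans h2) (by linarith [B.hP])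
  linarith

theorem G_lip (h0 : 0 ≤ ρ) (h1 : ρ ≤ 1 / 8) {k l : ℕ} (h : k ≤ l) :
    |A.G B k - A.G B l| ≤ ((l - k : ℕ) : ℝ) * (6 * A.P * B.P) := by
  obtain ⟨d, rfl⟩ : ∃ d, l = k + d := ⟨l - k, by omega⟩
  rw [Nat.add_sub_cancel_left]
  induction d with
  | zero => simp
  | succ d ih =>
    have h2 := ih (by omega)
    have h3 := A.G_step B h0 h1 (k + d)
    rw [show k + (d + 1) = k + d + 1 by ring]
    push_cast
    rw [abs_le] at *
    constructor <;> linarith [h2.1, h2.2, h3.1, h3.2]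

theorem sum_nat_aux (n : ℕ) : ∑ t ∈ range n, ((t : ℝ) + 1) = n * (n + 1) / 2 := by
  induction n with
  | zero => simp
  | succ n ih => rw [sum_range_succ, ih]; push_cast; ring

/-- lower bound for `G` -/
theorem G_lower (h0 : 0 ≤ ρ) (h1 : ρ ≤ 1 / 16) {L : ℕ} {Q : ℝ} (hLA : A.L ≤ L) (hLB : B.L ≤ L)
    (hQA : A.P ≤ Q) (hQB : B.P ≤ Q) (hQ : Q ^ 2 ≤ 3 * A.P * B.P) (hLQ : L * Q ≤ 1 / 8)
    (hQ' : Q ≤ 1 / 16) {k : ℕ} (hk : k ≤ L) : B.P / 12288 ≤ A.G B k := by
  have hQ0 : 0 < Q := lt_of_lt_of_le A.hP hQA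
  set N := ⌊1 / (8 * Q)⌋₊ with hN
  have hN1 : (N : ℝ) * Q ≤ 1 / 8 := by
    have : (N : ℝ) ≤ 1 / (8 * Q) := Nat.floor_le (by positivity)
    calc (N : ℝ) * Q ≤ 1 / (8 * Q) * Q := mul_le_mul_of_nonneg_right this hQ0.le
      _ = 1 / 8 := by field_simp
  have hN2 : 1 / 16 ≤ (N : ℝ) * Q := by
    have h2 : 1 / (8 * Q) < N + 1 := Nat.lt_floor_add_one _
    have h3 : 1 / 8 < (N + 1) * Q := by
      calc 1 / 8 = 1 / (8 * Q) * Q := by field_simp
        _ < (N + 1) * Q := mul_lt_mul_of_pos_right h2 hQ0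
    linarith
  -- pointwise bounds
  have hA : ∀ i : ℕ, L ≤ i → i ≤ L + N → A.P / 2 ≤ A.f i := by
    intro i hi1 hi2
    refine A.f_half h0 h1 (by omega) ?_
    have h2 : (i : ℝ) ≤ L + N := by exact_mod_cast hi2
    calc (i : ℝ) * A.P ≤ (L + N) * Q :=
          mul_le_mul h2 hQA A.hP.le (by positivity)
      _ ≤ 3 / 8 := by linarith
  have hB : ∀ i : ℕ, L ≤ i → i ≤ 2 * L + N → B.P / 2 ≤ B.f i := by
    intro i hi1 hi2
    refine B.f_half h0 h1 (by omega) ?_
    have h2 : (i : ℝ) ≤ 2 * L + N := by exact_mod_cast hi2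
    calc (i : ℝ) * B.P ≤ (2 * L + N) * Q :=
          mul_le_mul h2 hQB B.hP.le (by positivity)
      _ ≤ 3 / 8 := by linarith
  have hg : ∀ t < N, ((t : ℝ) + 1) * (A.P * B.P / 4) ≤ A.g B (2 * L + t) := by
    intro t ht
    unfold g
    have hsub : Ico L (L + t + 1) ⊆ range (2 * L + t + 1) := by
      intro j hj
      rw [mem_Ico] at hj
      rw [mem_range]
      omega
    refine le_trans ?_ (sum_le_sum_of_subset_of_nonneg hsub
      fun j _ _ => mul_nonneg (B.f_nonneg _) (A.f_nonneg _))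
    have hcard : ((t : ℝ) + 1) * (A.P * B.P / 4) =
        ∑ _j ∈ Ico L (L + t + 1), (B.P / 2) * (A.P / 2) := by
      rw [sum_const, Nat.card_Ico, nsmul_eq_mul, show L + t + 1 - L = t + 1 by omega]
      push_cast
      ring
    rw [hcard]
    refine sum_le_sum fun j hj => ?_
    rw [mem_Ico] at hj
    exact mul_le_mul (hB j hj.1 (by omega)) (hA _ (by omega) (by omega))
      (by linarith [A.hP]) (B.f_nonneg _)
  have hterm : ∀ n, 0 ≤ A.g B (n + k) * (B.f n + B.f (n + 1)) := fun n =>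
    mul_nonneg (A.g_nonneg B _) (B.w_nonneg n)
  have hG : ∑ t ∈ range N, A.g B ((2 * L - k + t) + k) * (B.f (2 * L - k + t) + B.f (2 * L - k + t + 1)) ≤
      A.G B k := by
    unfold G
    have := (A.summable_gw B k).sum_le_tsum ((range N).map (addLeftEmbedding (2 * L - k)))
      fun n _ => hterm n
    rw [sum_map] at this
    exact this
  refine le_trans ?_ hG
  have hlow : ∑ t ∈ range N, ((t : ℝ) + 1) * (A.P * B.P / 4) * (B.P / 2) ≤
      ∑ t ∈ range N, A.g B ((2 * L - k + t) + k) * (B.f (2 * L - k + t) + B.f (2 * L - k + t + 1)) := by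
    refine sum_le_sum fun t ht => ?_
    rw [mem_range] at ht
    rw [show 2 * L - k + t + k = 2 * L + t by omega]
    refine mul_le_mul (hg t ht) ?_ (by linarith [B.hP]) (A.g_nonneg B _)
    have := hB (2 * L - k + t) (by omega) (by omega)
    linarith [B.f_nonneg (2 * L - k + t + 1)]
  refine le_trans ?_ hlow
  rw [← sum_mul, ← sum_mul, sum_nat_aux]
  have hAP := A.hP
  have hBP := B.hP
  have h5 : (1 / 16) ^ 2 ≤ ((N : ℝ) * Q) ^ 2 := by
    exact pow_le_pow_left₀ (by norm_num) hN2 2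
  have h6 : (1 / 16) ^ 2 ≤ (N : ℝ) ^ 2 * (3 * A.P * B.P) := by
    calc (1 / 16 : ℝ) ^ 2 ≤ ((N : ℝ) * Q) ^ 2 := h5
      _ = (N : ℝ) ^ 2 * Q ^ 2 := by ring
      _ ≤ (N : ℝ) ^ 2 * (3 * A.P * B.P) := mul_le_mul_of_nonneg_left hQ (by positivity)
  have h7 : (N : ℝ) ^ 2 * (A.P * B.P) * B.P / 16 ≤
      (N : ℝ) * (N + 1) / 2 * (A.P * B.P / 4) * (B.P / 2) := by
    have : 0 ≤ (N : ℝ) * (A.P * B.P) * B.P := by positivity
    nlinarith
  refine le_trans ?_ h7
  nlinarith

theorem rv_tie (h : ∀ F : ℕ → ℝ, A.bra F = B.bra F) : A.rv B = 1 / 2 := by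
  have := A.rv_eq B
  rw [h (A.G B), sub_self, mul_zero] at this
  linarith

/-- the case of very different probabilities -/
theorem rv_far (h0 : 0 ≤ ρ) (h1 : ρ ≤ 1 / 8) (h : 3 * B.P ≤ A.P) : 1 / 2 < A.rv B := by
  have hSA : ∀ n, |A.S n| ≤ 1 := fun n => by
    rw [abs_of_nonneg (A.S_nonneg n)]; exact A.S_le_one n
  have s1 : Summable fun m => B.f (m + 1) * (A.S m + A.S (m + 1)) := by
    have := (B.summable_fS hSA).add (B.summable_fS (h := fun n => A.S (n + 1)) fun n => hSA _)
    refine this.congr fun n => ?_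
    ring
  have h2 : ∑' m, B.f (m + 1) * (A.S m + A.S (m + 1)) ≤ ∑' m, (2 * B.P) * A.S m := by
    refine s1.tsum_le_tsum (fun m => ?_) (A.hasSum_S.summable.mul_left _)
    have h3 : A.S (m + 1) ≤ A.S m := A.S_anti (Nat.le_succ m)
    calc B.f (m + 1) * (A.S m + A.S (m + 1)) ≤ B.P * (A.S m + A.S m) :=
          mul_le_mul (B.f_le _) (by linarith)
            (add_nonneg (A.S_nonneg _) (A.S_nonneg _)) B.hP.le
      _ = (2 * B.P) * A.S m := by ring
  rw [tsum_mul_left, A.hasSum_S.tsum_eq] at h2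
  have h4 := A.E_le h0 (by linarith)
  have h5 : B.P * A.E ≤ A.P / 3 * A.E := mul_le_mul_of_nonneg_right (by linarith) A.E_pos.le
  unfold rv
  linarith

theorem bra_sub (F : ℕ → ℝ) (c : ℝ) :
    A.bra F = A.E * c + ∑ k ∈ range A.L, A.W k * (F k - c) + A.W A.L * (F A.L - c) := by
  unfold E bra
  rw [sum_range_succ, sum_range_succ, add_mul, sum_mul]
  have : ∑ k ∈ range A.L, A.W k * F k = ∑ k ∈ range A.L, A.W k * 1 * c +
      ∑ k ∈ range A.L, A.W k * (F k - c) := by
    rw [← sum_add_distrib]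
    refine sum_congr rfl fun k _ => ?_
    ring
  rw [this]
  ring

/-- the main comparison -/
theorem beats (h0 : 0 ≤ ρ) (h1 : ρ ≤ 1 / 2 ^ 20)
    (h : (A.L = B.L ∧ A.P = B.P ∧ 1 ≤ B.E - A.E) ∨
      (2 ^ 20 * ((max A.L B.L : ℕ) : ℝ) < B.E - A.E)) : 1 / 2 < A.rv B := by
  have hρ8 : ρ ≤ 1 / 8 := h1.trans (by norm_num)
  have hρ16 : ρ ≤ 1 / 16 := h1.trans (by norm_num)
  have hρ4 : ρ ≤ 1 / 4 := h1.trans (by norm_num)
  have hAP := A.hP
  have hBP := B.hP
  by_cases hfar : 3 * B.P ≤ A.P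
  · exact A.rv_far B h0 hρ8 hfar
  push Not at hfar
  have hEpos : A.E < B.E := by
    rcases h with ⟨_, _, h⟩ | h
    · linarith
    · have : (0 : ℝ) ≤ 2 ^ 20 * ((max A.L B.L : ℕ) : ℝ) := by positivity
      linarith
  have hfar' : B.P < 3 * A.P := by
    by_contra hcon
    push Not at hcon
    have h2 := B.E_le h0 hρ4
    have h3 := A.one_le_EP
    have h4 : A.E * A.P < B.E * A.P := mul_lt_mul_of_pos_right hEpos hAP
    have h5 : B.E * (3 * A.P) ≤ B.E * B.P := mul_le_mul_of_nonneg_left hcon B.E_pos.le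
    linarith
  -- the common length and probability
  set L := max A.L B.L with hL
  set Q := max A.P B.P with hQdef
  have hQA : A.P ≤ Q := le_max_left _ _
  have hQB : B.P ≤ Q := le_max_right _ _
  have hQ0 : 0 < Q := lt_of_lt_of_le hAP hQA
  have hQ : Q ^ 2 ≤ 3 * A.P * B.P := by
    rcases le_total A.P B.P with h2 | h2
    · rw [hQdef, max_eq_right h2]; nlinarith
    · rw [hQdef, max_eq_left h2]; nlinarith
  have hQρ : Q ≤ 3 * ρ ^ L := by
    rcases le_total A.L B.L with h2 | h2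
    · rw [hL, max_eq_right h2]
      have := B.P_le
      exact max_le (by linarith) (by linarith)
    · rw [hL, max_eq_left h2]
      have := A.P_le
      exact max_le (by linarith) (by linarith)
  have hL1 : 1 ≤ L := A.hL.trans (le_max_left _ _)
  have hLρ : (L : ℝ) * ρ ^ L ≤ ρ := by
    obtain ⟨M, hM⟩ : ∃ M, L = M + 1 := ⟨L - 1, by omega⟩
    rw [hM]
    clear_value L
    have h2 : ∀ M : ℕ, ((M + 1 : ℕ) : ℝ) * ρ ^ M ≤ 1 := by
      intro M
      induction M with
      | zero => simp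
      | succ M ih =>
        have h3 : 0 ≤ ρ ^ M := pow_nonneg h0 M
        have h4 : ((M + 1 + 1 : ℕ) : ℝ) ≤ 2 * ((M + 1 : ℕ) : ℝ) := by push_cast; linarith
        calc ((M + 1 + 1 : ℕ) : ℝ) * ρ ^ (M + 1) = ((M + 1 + 1 : ℕ) : ℝ) * (ρ ^ M * ρ) := by
              rw [pow_succ]
          _ ≤ (2 * ((M + 1 : ℕ) : ℝ)) * (ρ ^ M * (1 / 2)) := by
              apply mul_le_mul h4 _ (mul_nonneg h3 h0) (by positivity)
              exact mul_le_mul_of_nonneg_left (by linarith) h3
          _ = ((M + 1 : ℕ) : ℝ) * ρ ^ M := by ring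
          _ ≤ 1 := ih
    calc ((M + 1 : ℕ) : ℝ) * ρ ^ (M + 1) = (((M + 1 : ℕ) : ℝ) * ρ ^ M) * ρ := by rw [pow_succ]; ring
      _ ≤ 1 * ρ := mul_le_mul_of_nonneg_right (h2 M) h0
      _ = ρ := one_mul ρ
  have hLQ : (L : ℝ) * Q ≤ 1 / 8 := by
    calc (L : ℝ) * Q ≤ L * (3 * ρ ^ L) := mul_le_mul_of_nonneg_left hQρ (by positivity)
      _ = 3 * (L * ρ ^ L) := by ring
      _ ≤ 3 * ρ := by linarith
      _ ≤ 1 / 8 := by linarith [h1, (by norm_num : (1 : ℝ) / 2 ^ 20 ≤ 1 / 24)]
  have hQ16 : Q ≤ 1 / 16 := by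
    have h2 : ρ ^ L ≤ ρ := by
      calc ρ ^ L ≤ ρ ^ 1 := pow_le_pow_of_le_one h0 (by linarith) hL1
        _ = ρ := pow_one ρ
    linarith [h1, (by norm_num : (1 : ℝ) / 2 ^ 20 ≤ 1 / 48)]
  have hGl : ∀ k ≤ L, B.P / 12288 ≤ A.G B k := fun k hk =>
    A.G_lower B h0 hρ16 (le_max_left _ _) (le_max_right _ _) hQA hQB hQ hLQ hQ16 hk
  have hkey : 0 < B.bra (A.G B) - A.bra (A.G B) := by
    rcases h with ⟨hLL, hPP, hE⟩ | hE
    · -- equal lengths and probabilities: compare with `G L`
      have hAL : A.L = L := by rw [hL, ← hLL, max_self]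
      have hBL : B.L = L := by rw [hL, hLL, max_self]
      have eA := A.bra_sub (A.G B) (A.G B L)
      have eB := B.bra_sub (A.G B) (A.G B L)
      rw [hAL, sub_self, mul_zero, add_zero] at eA
      rw [hBL, sub_self, mul_zero, add_zero] at eB
      have bA : |∑ k ∈ range L, A.W k * (A.G B k - A.G B L)| ≤ 12 * ρ * B.P := by
        have h2 := A.sum_W_lt' h0 hρ4
        rw [hAL] at h2
        calc |∑ k ∈ range L, A.W k * (A.G B k - A.G B L)|
            ≤ ∑ k ∈ range L, |A.W k * (A.G B k - A.G B L)| := abs_sum_le_sum_abs _ _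
          _ ≤ ∑ k ∈ range L, (((L - k : ℕ) : ℝ) * A.W k) * (6 * A.P * B.P) := by
              refine sum_le_sum fun k hk => ?_
              rw [mem_range] at hk
              rw [abs_mul, abs_of_nonneg (A.W_nonneg k)]
              have := A.G_lip B h0 hρ8 hk.le
              calc A.W k * |A.G B k - A.G B L|
                  ≤ A.W k * (((L - k : ℕ) : ℝ) * (6 * A.P * B.P)) :=
                    mul_le_mul_of_nonneg_left this (A.W_nonneg k)
                _ = _ := by ring
          _ = ((∑ k ∈ range L, ((L - k : ℕ) : ℝ) * A.W k) * A.P) * (6 * B.P) := by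
              rw [← sum_mul]; ring
          _ ≤ (2 * ρ) * (6 * B.P) := mul_le_mul_of_nonneg_right h2 (by linarith)
          _ = 12 * ρ * B.P := by ring
      have bB : |∑ k ∈ range L, B.W k * (A.G B k - A.G B L)| ≤ 12 * ρ * B.P := by
        have h2 := B.sum_W_lt' h0 hρ4
        rw [hBL] at h2
        calc |∑ k ∈ range L, B.W k * (A.G B k - A.G B L)|
            ≤ ∑ k ∈ range L, |B.W k * (A.G B k - A.G B L)| := abs_sum_le_sum_abs _ _
          _ ≤ ∑ k ∈ range L, (((L - k : ℕ) : ℝ) * B.W k) * (6 * A.P * B.P) := by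
              refine sum_le_sum fun k hk => ?_
              rw [mem_range] at hk
              rw [abs_mul, abs_of_nonneg (B.W_nonneg k)]
              have := A.G_lip B h0 hρ8 hk.le
              calc B.W k * |A.G B k - A.G B L|
                  ≤ B.W k * (((L - k : ℕ) : ℝ) * (6 * A.P * B.P)) :=
                    mul_le_mul_of_nonneg_left this (B.W_nonneg k)
                _ = _ := by ring
          _ = ((∑ k ∈ range L, ((L - k : ℕ) : ℝ) * B.W k) * B.P) * (6 * A.P) := by
              rw [← sum_mul]; ring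
          _ ≤ (2 * ρ) * (6 * A.P) := mul_le_mul_of_nonneg_right h2 (by linarith)
          _ = 12 * ρ * B.P := by rw [hPP]; ring
      have h3 := hGl L le_rfl
      have h4 : 1 * (B.P / 12288) ≤ (B.E - A.E) * A.G B L :=
        mul_le_mul hE h3 (by positivity) (by linarith)
      rw [abs_le] at bA bB
      have h5 : 24 * ρ * B.P < B.P / 12288 := by
        have : 24 * ρ < 1 / 12288 := by
          have : (24 : ℝ) * (1 / 2 ^ 20) < 1 / 12288 := by norm_num
          linarith
        calc 24 * ρ * B.P < 1 / 12288 * B.P := mul_lt_mul_of_pos_right this hBP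
          _ = B.P / 12288 := by ring
      rw [eA, eB]
      nlinarith [bA.1, bA.2, bB.1, bB.2]
    · -- compare with `G 0`
      have eA : A.bra (A.G B) = A.E * A.G B 0 + A.bra fun k => A.G B k - A.G B 0 := by
        unfold E bra
        rw [sum_mul, ← sum_add_distrib]
        refine sum_congr rfl fun k _ => ?_
        ring
      have eB : B.bra (A.G B) = B.E * A.G B 0 + B.bra fun k => A.G B k - A.G B 0 := by
        unfold E bra
        rw [sum_mul, ← sum_add_distrib]
        refine sum_congr rfl fun k _ => ?_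
        ring
      have gen : ∀ k ≤ L, |A.G B k - A.G B 0| ≤ L * (6 * A.P * B.P) := by
        intro k hk
        have := A.G_lip B h0 hρ8 (Nat.zero_le k)
        rw [abs_sub_comm, Nat.sub_zero] at this
        refine this.trans ?_
        apply mul_le_mul_of_nonneg_right _ (by positivity)
        exact_mod_cast hk
      have bA : |A.bra fun k => A.G B k - A.G B 0| ≤ 12 * L * B.P := by
        have h2 : |A.bra fun k => A.G B k - A.G B 0| ≤ A.E * (L * (6 * A.P * B.P)) := by
          unfold bra E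
          refine (abs_sum_le_sum_abs _ _).trans ?_
          unfold bra
          rw [sum_mul]
          refine sum_le_sum fun k hk => ?_
          rw [mem_range] at hk
          rw [abs_mul, abs_of_nonneg (A.W_nonneg k), mul_one]
          refine mul_le_mul_of_nonneg_left (gen k ?_) (A.W_nonneg k)
          have : A.L ≤ L := le_max_left _ _
          omega
        have h3 := A.E_le h0 hρ4
        calc |A.bra fun k => A.G B k - A.G B 0| ≤ A.E * (L * (6 * A.P * B.P)) := h2
          _ = (A.E * A.P) * (L * (6 * B.P)) := by ring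
          _ ≤ 2 * (L * (6 * B.P)) := mul_le_mul_of_nonneg_right (by linarith) (by positivity)
          _ = 12 * L * B.P := by ring
      have bB : |B.bra fun k => A.G B k - A.G B 0| ≤ 12 * L * A.P := by
        have h2 : |B.bra fun k => A.G B k - A.G B 0| ≤ B.E * (L * (6 * A.P * B.P)) := by
          unfold bra E
          refine (abs_sum_le_sum_abs _ _).trans ?_
          unfold bra
          rw [sum_mul]
          refine sum_le_sum fun k hk => ?_
          rw [mem_range] at hk
          rw [abs_mul, abs_of_nonneg (B.W_nonneg k), mul_one]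
          refine mul_le_mul_of_nonneg_left (gen k ?_) (B.W_nonneg k)
          have : B.L ≤ L := le_max_right _ _
          omega
        have h3 := B.E_le h0 hρ4
        calc |B.bra fun k => A.G B k - A.G B 0| ≤ B.E * (L * (6 * A.P * B.P)) := h2
          _ = (B.E * B.P) * (L * (6 * A.P)) := by ring
          _ ≤ 2 * (L * (6 * A.P)) := mul_le_mul_of_nonneg_right (by linarith) (by positivity)
          _ = 12 * L * A.P := by ring
      rw [abs_le] at bA bB
      have h3 := hGl 0 (Nat.zero_le _)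
      have hL0 : (0 : ℝ) < L := by exact_mod_cast hL1
      have h4 : (2 ^ 20 * (L : ℝ)) * (B.P / 12288) ≤ (B.E - A.E) * A.G B 0 :=
        mul_le_mul hE.le h3 (by positivity) (by linarith)
      have h5 : 12 * (L : ℝ) * A.P ≤ 12 * L * (3 * B.P) :=
        mul_le_mul_of_nonneg_left hfar.le (by positivity)
      have h6 : 48 * (L : ℝ) * B.P < (2 ^ 20 * (L : ℝ)) * (B.P / 12288) := by
        have : 0 < (L : ℝ) * B.P := by positivity
        nlinarith
      rw [eA, eB]
      linarith [bA.1, bA.2, bB.1, bB.2]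
  have := A.rv_eq B
  linarith

end Ren

end Pool.Agent.Q289.Race
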