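import Pool.Agent.Q289.Race.Defs
import Pool.Agent.Q289.Race.Main

/-!
# Races between words: the renewal identity for the source
-/

set_option autoImplicit false

namespace Pool.Agent.Q289.Race

open MeasureTheory ProbabilityTheory Finset

variable {s : ℕ} (v : ProbVec s)

instance : IsProbabilityMeasure v.source := by
  unfold ProbVec.source
  infer_instance

/-- the event is determined by the first `n` letters -/
def Det (n : ℕ) (U : Set (ℕ → Fin s)) : Prop := ∀ x y, (∀ i < n, x i = y i) → x ∈ U → y ∈ U

/-- the word `w` is read at the coordinates `n, n+1, …` -/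
def At (w : List (Fin s)) (n : ℕ) : Set (ℕ → Fin s) :=
  {x | ∀ (i : ℕ) (h : i < w.length), x (n + i) = w[i]}

/-- the probability of a word -/
noncomputable def ProbVec.wt (w : List (Fin s)) : ℝ := (w.map v.p).prod

theorem letter_singleton (a : Fin s) : v.letter.toMeasure {a} = ENNReal.ofReal (v.p a) := by
  rw [PMF.toMeasure_apply_singleton _ _ (measurableSet_singleton a)]
  rfl

theorem det_preimage {n : ℕ} {U : Set (ℕ → Fin s)} (hU : Det n U) :
    U = (fun (a : ℕ → Fin s) (i : (range n : Finset ℕ)) => a i) ⁻¹'
      ((fun (a : ℕ → Fin s) (i : (range n : Finset ℕ)) => a i) '' U) := by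
  ext x
  constructor
  · intro hx
    exact ⟨x, hx, rfl⟩
  · rintro ⟨y, hy, hxy⟩
    refine hU y x (fun i hi => ?_) hy
    exact congrFun hxy ⟨i, mem_range.2 hi⟩

theorem det_measurable {n : ℕ} {U : Set (ℕ → Fin s)} (hU : Det n U) : MeasurableSet U := by
  rw [det_preimage hU]
  have h1 : MeasurableSet ((fun (a : ℕ → Fin s) (i : (range n : Finset ℕ)) => a i) '' U) :=
    (Set.toFinite _).measurableSet
  refine h1.preimage ?_
  fun_prop

theorem measure_at (w : List (Fin s)) (n : ℕ) : v.source.real (At w n) = v.wt w := by
  classical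
  set t : ℕ → Set (Fin s) := fun i => {a | ∃ h : i - n < w.length, a = w[i - n]} with ht
  have e : At w n = Set.pi (Ico n (n + w.length) : Finset ℕ) t := by
    ext x
    simp only [At, Set.mem_ofPred_eq, Set.mem_pi, Finset.mem_coe, mem_Ico, ht]
    constructor
    · rintro h i ⟨h1, h2⟩
      have h3 : i - n < w.length := by omega
      refine ⟨h3, ?_⟩
      have := h (i - n) h3
      rwa [show n + (i - n) = i by omega] at this
    · intro h i hi
      obtain ⟨h3, h4⟩ := h (n + i) ⟨by omega, by omega⟩
      rw [h4]
      congr 1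
      omega
  rw [measureReal_def, e]
  unfold ProbVec.source
  rw [Measure.infinitePi_pi _ (fun i _ => (Set.toFinite _).measurableSet)]
  rw [prod_Ico_eq_prod_range]
  rw [show n + w.length - n = w.length by omega]
  have h1 : ∀ k ∈ range w.length, v.letter.toMeasure (t (n + k)) =
      ENNReal.ofReal (if h : k < w.length then v.p w[k] else 1) := by
    intro k hk
    rw [mem_range] at hk
    rw [dif_pos hk, ← letter_singleton v]
    congr 1
    ext a
    simp only [ht, Set.mem_ofPred_eq, Set.mem_singleton_iff]
    constructor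
    · rintro ⟨h3, h4⟩
      rw [h4]
      congr 1
      omega
    · intro h
      refine ⟨by omega, ?_⟩
      rw [h]
      congr 1
      omega
  rw [prod_congr rfl h1, ← ENNReal.ofReal_prod_of_nonneg, ENNReal.toReal_ofReal]
  · rw [prod_range]
    unfold ProbVec.wt
    have h2 : w.map v.p = List.ofFn fun i : Fin w.length => v.p w[(i : ℕ)] := by
      apply List.ext_getElem
      · simp
      · intro i h3 h4
        simp
    rw [h2, List.prod_ofFn]
    refine prod_congr rfl fun i _ => ?_
    rw [dif_pos i.2]
  · refine prod_nonneg fun i _ => ?_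
    split_ifs
    · exact v.nonneg _
    · exact zero_le_one
  · intro i _
    split_ifs
    · exact v.nonneg _
    · exact zero_le_one

theorem indep_at (w : List (Fin s)) {n : ℕ} {U : Set (ℕ → Fin s)} (hU : Det n U) :
    v.source.real (U ∩ At w n) = v.source.real U * v.wt w := by
  classical
  have hcoord : iIndepFun (fun (i : ℕ) (ω : ℕ → Fin s) => ω i) v.source := by
    unfold ProbVec.source
    exact iIndepFun_infinitePi (X := fun _ ω => ω) (by fun_prop)
  have hdisj : Disjoint (range n) (Ico n (n + w.length)) := by
    rw [Finset.disjoint_left]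
    intro i hi hi'
    rw [mem_range] at hi
    rw [mem_Ico] at hi'
    omega
  have hind := hcoord.indepFun_finset (range n) (Ico n (n + w.length)) hdisj
    (fun i => measurable_pi_apply i)
  set f : (ℕ → Fin s) → (↥(range n) → Fin s) := fun a i => a i
  set g : (ℕ → Fin s) → (↥(Ico n (n + w.length)) → Fin s) := fun a i => a i
  have hg : At w n = g ⁻¹' (g '' At w n) := by
    ext x
    constructor
    · intro hx
      exact ⟨x, hx, rfl⟩
    · rintro ⟨y, hy, hxy⟩ i hi
      rw [← hy i hi]
      exact (congrFun hxy ⟨n + i, mem_Ico.2 ⟨by omega, by omega⟩⟩).symm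
  have h1 := hind.measure_inter_preimage_eq_mul (f '' U) (g '' At w n)
    (Set.toFinite _).measurableSet (Set.toFinite _).measurableSet
  rw [← det_preimage hU, ← hg] at h1
  rw [measureReal_def, h1, ENNReal.toReal_mul, ← measureReal_def, ← measureReal_def, measure_at]

/-- no occurrence up to time `n` -/
def NoOcc (A : List (Fin s)) (n : ℕ) : Set (ℕ → Fin s) := {x | ∀ m ≤ n, ¬ EndsAt A x m}

/-- first occurrence at time `n` -/
def First (A : List (Fin s)) (n : ℕ) : Set (ℕ → Fin s) :=
  {x | EndsAt A x n ∧ ∀ m < n, ¬ EndsAt A x m}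

theorem endsAt_congr {A : List (Fin s)} {x y : ℕ → Fin s} {m : ℕ} (hA : A ≠ [])
    (h : ∀ i < m, x i = y i) (hx : EndsAt A x m) : EndsAt A y m := by
  have hL : 0 < A.length := List.length_pos_iff.2 hA
  refine ⟨hx.1, fun i hi => ?_⟩
  rw [← h _ (by have := hx.1; omega)]
  exact hx.2 i hi

theorem det_noOcc {A : List (Fin s)} (hA : A ≠ []) (n : ℕ) : Det n (NoOcc A n) := by
  intro x y h hx m hm hy
  exact hx m hm (endsAt_congr hA (fun i hi => (h i (by omega)).symm) hy)

theorem det_first {A : List (Fin s)} (hA : A ≠ []) (n : ℕ) : Det n (First A n) := by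
  intro x y h hx
  exact ⟨endsAt_congr hA h hx.1, fun m hm hy =>
    hx.2 m hm (endsAt_congr hA (fun i hi => (h i (by omega)).symm) hy)⟩

/-- `k` is the length of a border of `A` -/
def Border (A : List (Fin s)) (k : ℕ) : Prop :=
  1 ≤ k ∧ k ≤ A.length ∧ ∀ (i : ℕ) (_ : i < k) (h1 : i < A.length)
    (h2 : A.length - k + i < A.length), A[i] = A[A.length - k + i]

theorem border_self {A : List (Fin s)} (hA : A ≠ []) : Border A A.length := by
  refine ⟨List.length_pos_iff.2 hA, le_rfl, fun i _ h1 h2 => ?_⟩
  congr 1
  omega

theorem first_inter_border {A : List (Fin s)} {n k : ℕ} (hk : Border A k) :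
    First A (n + k) ∩ At A n = First A (n + k) ∩ At (A.drop k) (n + k) := by
  ext x
  constructor
  · rintro ⟨h1, h2⟩
    refine ⟨h1, fun i hi => ?_⟩
    rw [List.length_drop] at hi
    rw [List.getElem_drop, show n + k + i = n + (k + i) by ring]
    exact h2 (k + i) (by omega)
  · rintro ⟨h1, h2⟩
    refine ⟨h1, fun i hi => ?_⟩
    by_cases hik : i < k
    · have h3 := h1.1.2 (A.length - k + i) (by have := hk.2.1; omega)
      have h4 := h1.1.1
      have h5 := hk.2.1
      rw [show n + k - A.length + (A.length - k + i) = n + i by omega] at h3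
      rw [h3]
      exact (hk.2.2 i hik hi _).symm
    · have h3 := h2 (i - k) (by rw [List.length_drop]; omega)
      rw [List.getElem_drop] at h3
      rw [show n + k + (i - k) = n + i by omega] at h3
      rw [h3]
      congr 1
      omega

theorem first_inter_nonborder {A : List (Fin s)} {n k : ℕ} (h1k : 1 ≤ k) (hkL : k ≤ A.length)
    (hk : ¬ Border A k) : First A (n + k) ∩ At A n = ∅ := by
  rw [Set.eq_empty_iff_forall_notMem]
  rintro x ⟨h1, h2⟩
  apply hk
  refine ⟨h1k, hkL, fun i hi hi1 hi2 => ?_⟩
  have h3 := h1.1.2 (A.length - k + i) hi2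
  have h4 := h1.1.1
  rw [show n + k - A.length + (A.length - k + i) = n + i by omega] at h3
  rw [← h3, ← h2 i hi1]

theorem noOcc_inter {A : List (Fin s)} (n : ℕ) :
    NoOcc A n ∩ At A n = ⋃ k ∈ Icc 1 A.length, (First A (n + k) ∩ At A n) := by
  classical
  ext x
  simp only [Set.mem_inter_iff, Set.mem_iUnion, mem_Icc, exists_prop]
  constructor
  · rintro ⟨h1, h2⟩
    -- there is an occurrence at `n + |A|`
    have h3 : ∃ m, EndsAt A x m := by
      refine ⟨n + A.length, by omega, fun i hi => ?_⟩
      rw [Nat.add_sub_cancel]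
      exact h2 i hi
    have h4 : EndsAt A x (n + A.length) := by
      refine ⟨by omega, fun i hi => ?_⟩
      rw [Nat.add_sub_cancel]
      exact h2 i hi
    have h5 := Nat.find_spec h3
    have h6 : Nat.find h3 ≤ n + A.length := Nat.find_min' h3 h4
    have h7 : n < Nat.find h3 := by
      by_contra hcon
      push Not at hcon
      exact h1 _ hcon h5
    refine ⟨Nat.find h3 - n, ⟨by omega, by omega⟩, ?_, h2⟩
    rw [show n + (Nat.find h3 - n) = Nat.find h3 by omega]
    exact ⟨h5, fun m hm => Nat.find_min h3 hm⟩
  · rintro ⟨k, ⟨hk1, hk2⟩, h1, h2⟩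
    exact ⟨fun m hm => h1.2 m (by omega), h2⟩

open Classical in
/-- the weights: reciprocals of the probabilities of the borders -/
noncomputable def ProbVec.W (A : List (Fin s)) (k : ℕ) : ℝ :=
  if Border A k then (v.wt (A.take k))⁻¹ else 0

theorem wt_pos (hv : v.FullSupport) (w : List (Fin s)) : 0 < v.wt w := by
  unfold ProbVec.wt
  refine List.prod_pos fun x hx => ?_
  rw [List.mem_map] at hx
  obtain ⟨a, _, rfl⟩ := hx
  exact hv a

theorem wt_append (w w' : List (Fin s)) : v.wt (w ++ w') = v.wt w * v.wt w' := by
  unfold ProbVec.wt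
  rw [List.map_append, List.prod_append]

theorem wt_take_drop (w : List (Fin s)) (k : ℕ) : v.wt w = v.wt (w.take k) * v.wt (w.drop k) := by
  rw [← wt_append, List.take_append_drop]

theorem wt_le {ρ : ℝ} (hρ : ∀ i, v.p i ≤ ρ) (w : List (Fin s)) : v.wt w ≤ ρ ^ w.length := by
  unfold ProbVec.wt
  induction w with
  | nil => simp
  | cons a w ih =>
    have h0 : 0 ≤ ρ := (v.nonneg a).trans (hρ a)
    have h1 : 0 ≤ (w.map v.p).prod := List.prod_nonneg fun x hx => by
      rw [List.mem_map] at hx
      obtain ⟨a, _, rfl⟩ := hx
      exact v.nonneg a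
    rw [List.map_cons, List.prod_cons, List.length_cons, pow_succ, mul_comm]
    exact mul_le_mul ih (hρ a) (v.nonneg a) (pow_nonneg h0 _)

theorem renewal (hv : v.FullSupport) {A : List (Fin s)} (hA : A ≠ []) (n : ℕ) :
    v.source.real (NoOcc A n) =
      ∑ k ∈ range (A.length + 1), v.W A k * v.source.real (First A (n + k)) := by
  classical
  have h1 := indep_at v A (det_noOcc hA n)
  rw [noOcc_inter, measureReal_biUnion_finset] at h1
  · have hpos := wt_pos v hv A
    have h2 : ∀ k ∈ Icc 1 A.length, v.source.real (First A (n + k) ∩ At A n) =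
        v.W A k * v.source.real (First A (n + k)) * v.wt A := by
      intro k hk
      rw [mem_Icc] at hk
      unfold ProbVec.W
      split_ifs with hb
      · rw [first_inter_border hb, indep_at v _ (det_first hA _), wt_take_drop v A k]
        have := wt_pos v hv (A.take k)
        field_simp
      · rw [first_inter_nonborder hk.1 hk.2 hb]
        simp
    rw [sum_congr rfl h2, ← sum_mul] at h1
    have h3 := mul_right_cancel₀ hpos.ne' h1
    rw [← h3]
    have h4 : range (A.length + 1) = insert 0 (Icc 1 A.length) := by
      ext k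
      simp only [mem_range, mem_insert, mem_Icc]
      omega
    rw [h4, sum_insert (by simp)]
    have h5 : v.W A 0 = 0 := by
      unfold ProbVec.W
      rw [if_neg]
      intro h
      exact absurd h.1 (by norm_num)
    rw [h5, zero_mul, zero_add]
  · intro k _ l _ hkl
    change Disjoint _ _
    rw [Set.disjoint_left]
    rintro x ⟨h3, _⟩ ⟨h4, _⟩
    rcases lt_or_gt_of_ne hkl with h | h
    · exact h4.2 (n + k) (by omega) h3.1
    · exact h3.2 (n + l) (by omega) h4.1
  · intro k _
    refine (det_measurable (det_first hA _)).inter ?_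
    have : Det (n + A.length) (At A n) := by
      intro x y h hx i hi
      rw [← h (n + i) (by omega)]
      exact hx i hi
    exact det_measurable this

/-- the renewal data of a word -/
noncomputable def ProbVec.ren (hv : v.FullSupport) {ρ : ℝ} (hρ : ∀ i, v.p i ≤ ρ)
    (A : List (Fin s)) (hA : A ≠ []) : Ren ρ where
  L := A.length
  P := v.wt A
  W := v.W A
  S := fun n => v.source.real (NoOcc A n)
  f := fun n => v.source.real (First A n)
  hL := List.length_pos_iff.2 hA
  hP := wt_pos v hv A
  S0 := by
    have : NoOcc A 0 = Set.univ := by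
      rw [Set.eq_univ_iff_forall]
      intro x m hm h
      have h1 := h.1
      have h2 := List.length_pos_iff.2 hA
      omega
    rw [this]
    simp
  S_nonneg := fun n => measureReal_nonneg
  f_nonneg := fun n => measureReal_nonneg
  f_zero := by
    intro i hi
    have : First A i = ∅ := by
      rw [Set.eq_empty_iff_forall_notMem]
      intro x hx
      have := hx.1.1
      omega
    rw [this]
    simp
  step := by
    intro n
    have h1 : NoOcc A n = NoOcc A (n + 1) ∪ First A (n + 1) := by
      ext x
      constructor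
      · intro hx
        by_cases h : EndsAt A x (n + 1)
        · exact Or.inr ⟨h, fun m hm => hx m (by omega)⟩
        · left
          intro m hm
          rcases Nat.lt_or_ge m (n + 1) with h2 | h2
          · exact hx m (by omega)
          · rw [show m = n + 1 by omega]; exact h
      · rintro (hx | hx)
        · exact fun m hm => hx m (by omega)
        · exact fun m hm => hx.2 m (by omega)
    have h2 : Disjoint (NoOcc A (n + 1)) (First A (n + 1)) := by
      rw [Set.disjoint_left]
      intro x h3 h4
      exact h3 (n + 1) le_rfl h4.1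
    rw [h1, measureReal_union h2 (det_measurable (det_first hA _))]
    ring
  W_nonneg := by
    intro k
    unfold ProbVec.W
    split_ifs
    · exact (inv_pos.2 (wt_pos v hv _)).le
    · exact le_rfl
  WL := by
    unfold ProbVec.W
    rw [if_pos (border_self hA), List.take_length]
    exact inv_mul_cancel₀ (wt_pos v hv A).ne'
  W_le := by
    intro k hk
    unfold ProbVec.W
    have h0 : 0 ≤ ρ := by
      obtain ⟨a, _⟩ := List.exists_mem_of_ne_nil A hA
      exact (v.nonneg a).trans (hρ a)
    split_ifs
    · rw [wt_take_drop v A k, ← mul_assoc, inv_mul_cancel₀ (wt_pos v hv _).ne', one_mul]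
      have := wt_le v hρ (A.drop k)
      rwa [List.length_drop] at this
    · rw [zero_mul]; positivity
  P_le := wt_le v hρ A
  ren := renewal v hv hA

end Pool.Agent.Q289.Race
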