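import Pool.Agent.Q289.Race.Model

/-!
# Races between words: the race probability in terms of the renewal data
-/

set_option autoImplicit false

namespace Pool.Agent.Q289.Race

open MeasureTheory ProbabilityTheory Finset Filter Topology

variable {s : ℕ} (v : ProbVec s)

theorem lt_tau {A : List (Fin s)} {x : ℕ → Fin s} {n : ℕ} :
    (n : ℕ∞) < tau A x ↔ x ∈ NoOcc A n := by
  rw [← ENat.add_one_le_iff (ENat.natCast_ne_top n)]
  unfold tau
  simp only [le_iInf_iff, Set.mem_ofPred_eq]
  constructor
  · intro h m hm hx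
    have := h m hx
    have h2 : n + 1 ≤ m := by exact_mod_cast this
    omega
  · intro h m hx
    have : ¬ m ≤ n := fun hm => h m hm hx
    have h2 : n + 1 ≤ m := by omega
    exact_mod_cast h2

theorem tau_eq_iff {A : List (Fin s)} {x : ℕ → Fin s} {n : ℕ} :
    tau A x = n ↔ x ∈ First A n := by
  constructor
  · intro h
    have h1 : ∀ m < n, x ∈ NoOcc A m := by
      intro m hm
      rw [← lt_tau, h]
      exact_mod_cast hm
    have h2 : x ∉ NoOcc A n := by
      rw [← lt_tau, h]
      exact lt_irrefl _
    have h3 : ∀ m < n, ¬ EndsAt A x m := fun m hm => h1 m hm m le_rfl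
    refine ⟨?_, h3⟩
    by_contra hcon
    apply h2
    intro m hm
    rcases Nat.lt_or_ge m n with h4 | h4
    · exact h3 m h4
    · rw [show m = n by omega]; exact hcon
  · rintro ⟨h1, h2⟩
    apply le_antisymm
    · rw [← not_lt, lt_tau]
      intro h
      exact h n le_rfl h1
    · unfold tau
      simp only [le_iInf_iff, Set.mem_ofPred_eq]
      intro m hm
      have : ¬ m < n := fun h => h2 m h hm
      exact_mod_cast not_lt.1 this

theorem tau_lt_iff {A : List (Fin s)} {x : ℕ → Fin s} {n : ℕ} :
    tau A x < ((n + 1 : ℕ) : ℕ∞) ↔ x ∉ NoOcc A n := by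
  rw [← lt_tau, not_lt]
  push_cast
  exact ENat.lt_add_one_iff (ENat.natCast_ne_top n)

theorem noOcc_measurable {A : List (Fin s)} (hA : A ≠ []) (n : ℕ) : MeasurableSet (NoOcc A n) :=
  det_measurable (det_noOcc hA n)

theorem first_measurable {A : List (Fin s)} (hA : A ≠ []) (n : ℕ) : MeasurableSet (First A n) :=
  det_measurable (det_first hA n)

theorem first_zero {A : List (Fin s)} (hA : A ≠ []) : First A 0 = ∅ := by
  rw [Set.eq_empty_iff_forall_notMem]
  intro x hx
  have h1 := hx.1.1
  have h2 := List.length_pos_iff.2 hA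
  omega

theorem first_disjoint {A : List (Fin s)} {m n : ℕ} (h : m ≠ n) :
    Disjoint (First A m) (First A n) := by
  rw [Set.disjoint_left]
  rintro x h3 h4
  rcases lt_or_gt_of_ne h with h | h
  · exact h4.2 m h h3.1
  · exact h3.2 n h h4.1

variable (hv : v.FullSupport) {ρ : ℝ} (hρ : ∀ i, v.p i ≤ ρ)

theorem tau_top_null {B : List (Fin s)} (hB : B ≠ []) (hv : v.FullSupport) {ρ : ℝ}
    (hρ : ∀ i, v.p i ≤ ρ) : v.source {x | tau B x = ⊤} = 0 := by
  have h1 : ∀ n, v.source.real {x | tau B x = ⊤} ≤ (v.ren hv hρ B hB).S n := by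
    intro n
    change _ ≤ v.source.real (NoOcc B n)
    refine measureReal_mono ?_
    intro x hx
    rw [← lt_tau]
    have : tau B x = ⊤ := hx
    rw [this]
    exact ENat.natCast_lt_top n
  have h2 : v.source.real {x | tau B x = ⊤} ≤ 0 :=
    ge_of_tendsto' (v.ren hv hρ B hB).S_tendsto h1
  have h3 : v.source.real {x | tau B x = ⊤} = 0 := le_antisymm h2 measureReal_nonneg
  rw [measureReal_def, ENNReal.toReal_eq_zero_iff] at h3
  rcases h3 with h | h
  · exact h
  · exact absurd h (measure_ne_top _ _)

/-- sum over the possible values of `τ_B` -/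
theorem prod_real_iUnion {B : List (Fin s)} (hB : B ≠ []) {U : Set ((ℕ → Fin s) × (ℕ → Fin s))}
    {V : ℕ → Set (ℕ → Fin s)} (hV : ∀ n, MeasurableSet (V n))
    (hU : ∀ z, tau B z.2 ≠ ⊤ → (z ∈ U ↔ ∃ m : ℕ, z.1 ∈ V m ∧ z.2 ∈ First B (m + 1)))
    (hv : v.FullSupport) {ρ : ℝ} (hρ : ∀ i, v.p i ≤ ρ) :
    HasSum (fun m => v.source.real (V m) * v.source.real (First B (m + 1)))
      ((v.source.prod v.source).real U) := by
  set R : ℕ → Set ((ℕ → Fin s) × (ℕ → Fin s)) := fun m => V m ×ˢ First B (m + 1) with hR
  have hRm : ∀ m, MeasurableSet (R m) := fun m => (hV m).prod (first_measurable hB _)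
  have hRd : Pairwise (Function.onFun Disjoint R) := by
    intro m n hmn
    change Disjoint (R m) (R n)
    rw [Set.disjoint_left]
    rintro ⟨x, y⟩ ⟨_, h1⟩ ⟨_, h2⟩
    have h3 : m + 1 ≠ n + 1 := by omega
    exact Set.disjoint_left.1 (first_disjoint h3) h1 h2
  have hnull : (v.source.prod v.source) {z | tau B z.2 = ⊤} = 0 := by
    have e : {z : (ℕ → Fin s) × (ℕ → Fin s) | tau B z.2 = ⊤} =
        Set.univ ×ˢ {y | tau B y = ⊤} := by
      ext z; simp
    rw [e, Measure.prod_prod, tau_top_null v hB hv hρ, mul_zero]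
  have hUR : (v.source.prod v.source) U = (v.source.prod v.source) (⋃ m, R m) := by
    apply measure_congr
    have hae : ∀ᵐ z ∂(v.source.prod v.source), tau B z.2 ≠ ⊤ := by
      rw [ae_iff]
      simpa using hnull
    filter_upwards [hae] with z hz
    have h1 := hU z hz
    apply propext
    change z ∈ U ↔ z ∈ ⋃ m, R m
    rw [h1, Set.mem_iUnion]
    rfl
  have h2 := measure_iUnion hRd hRm (μ := v.source.prod v.source)
  have h3 : ∀ m, (v.source.prod v.source) (R m) = v.source (V m) * v.source (First B (m + 1)) :=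
    fun m => Measure.prod_prod _ _
  simp only [h3] at h2
  have hne : (∑' m, v.source (V m) * v.source (First B (m + 1))) ≠ ⊤ := by
    rw [← h2]
    exact measure_ne_top _ _
  have h4 : HasSum (fun m => (v.source (V m) * v.source (First B (m + 1))).toReal)
      (∑' m, v.source (V m) * v.source (First B (m + 1))).toReal := by
    rw [ENNReal.tsum_toReal_eq (fun m => ne_of_lt (lt_of_le_of_lt (ENNReal.le_tsum m)
      (lt_top_iff_ne_top.2 hne)))]
    exact ENNReal.hasSum_toReal hne
  rw [measureReal_def, hUR, h2]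
  convert h4 using 2 with m
  rw [ENNReal.toReal_mul]
  rfl

theorem race_eq {A B : List (Fin s)} (hA : A ≠ []) (hB : B ≠ []) (hv : v.FullSupport) {ρ : ℝ}
    (hρ : ∀ i, v.p i ≤ ρ) : race v A B = (v.ren hv hρ A hA).rv (v.ren hv hρ B hB) := by
  set a := v.ren hv hρ A hA with ha
  set b := v.ren hv hρ B hB with hb
  have hlt : HasSum (fun m => (1 - a.S m) * b.f (m + 1))
      ((v.source.prod v.source).real {z | tau A z.1 < tau B z.2}) := by
    have h := prod_real_iUnion v hB (U := {z | tau A z.1 < tau B z.2})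
      (V := fun m => (NoOcc A m)ᶜ) (fun m => (noOcc_measurable hA m).compl) (fun z hz => by
        constructor
        · intro h
          obtain ⟨n, hn⟩ := ENat.ne_top_iff_exists.1 hz
          have h1 : z.2 ∈ First B n := tau_eq_iff.1 hn.symm
          have hn0 : n ≠ 0 := by
            rintro rfl
            rw [first_zero hB] at h1
            exact h1
          obtain ⟨m, rfl⟩ : ∃ m, n = m + 1 := ⟨n - 1, by omega⟩
          refine ⟨m, ?_, h1⟩
          have h2 : tau A z.1 < tau B z.2 := h
          rw [← hn, tau_lt_iff] at h2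
          exact h2
        · rintro ⟨m, h1, h2⟩
          change tau A z.1 < tau B z.2
          rw [tau_eq_iff.2 h2, tau_lt_iff]
          exact h1) hv hρ
    have e : (fun m => (1 - a.S m) * b.f (m + 1)) =
        fun m => v.source.real (NoOcc A m)ᶜ * v.source.real (First B (m + 1)) := by
      funext m
      rw [measureReal_compl (noOcc_measurable hA m), probReal_univ]
      rfl
    rw [e]
    exact h
  have heq : HasSum (fun m => a.f (m + 1) * b.f (m + 1))
      ((v.source.prod v.source).real {z | tau A z.1 = tau B z.2}) := by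
    exact prod_real_iUnion v hB (U := {z | tau A z.1 = tau B z.2})
      (V := fun m => First A (m + 1)) (fun m => first_measurable hA _) (fun z hz => by
        constructor
        · intro h
          obtain ⟨n, hn⟩ := ENat.ne_top_iff_exists.1 hz
          have h1 : z.2 ∈ First B n := tau_eq_iff.1 hn.symm
          have hn0 : n ≠ 0 := by
            rintro rfl
            rw [first_zero hB] at h1
            exact h1
          obtain ⟨m, rfl⟩ : ∃ m, n = m + 1 := ⟨n - 1, by omega⟩
          refine ⟨m, ?_, h1⟩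
          have h2 : tau A z.1 = tau B z.2 := h
          rw [← hn] at h2
          exact tau_eq_iff.1 h2
        · rintro ⟨m, h1, h2⟩
          change tau A z.1 = tau B z.2
          rw [tau_eq_iff.2 h2, tau_eq_iff.2 h1]) hv hρ
  have hf : HasSum (fun m => b.f (m + 1)) 1 := b.hasSum_f_shift b.hL
  have h1 : HasSum (fun m => (1 - a.S m) * b.f (m + 1) + (1 / 2) * (a.f (m + 1) * b.f (m + 1)))
      (race v A B) := hlt.add (heq.mul_left _)
  have h2 : HasSum (fun m => b.f (m + 1) * (a.S m + a.S (m + 1))) (2 * (1 - race v A B)) := by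
    have h3 := (hf.sub h1).mul_left 2
    have e : (fun m => b.f (m + 1) * (a.S m + a.S (m + 1))) = fun i =>
        2 * (b.f (i + 1) - ((1 - a.S i) * b.f (i + 1) + 1 / 2 * (a.f (i + 1) * b.f (i + 1)))) := by
      funext m
      rw [a.step]
      ring
    rw [e]
    exact h3
  unfold Ren.rv
  rw [h2.tsum_eq]
  ring

end Pool.Agent.Q289.Race
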