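import Mathlib

/-!
# Races between words: the analysis of the renewal sequences
-/

set_option autoImplicit false

namespace Pool.Agent.Q289.Race

open Finset Filter Topology

/-- the renewal data of a word: `S n = P(τ > n)`, `f n = P(τ = n)`, `W k` the reciprocal of the
probability of the border of length `k` -/
structure Ren (ρ : ℝ) where
  L : ℕ
  P : ℝ
  W : ℕ → ℝ
  S : ℕ → ℝ
  f : ℕ → ℝ
  hL : 1 ≤ L
  hP : 0 < P
  S0 : S 0 = 1
  S_nonneg : ∀ n, 0 ≤ S n
  f_nonneg : ∀ n, 0 ≤ f n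
  f_zero : ∀ i < L, f i = 0
  step : ∀ n, f (n + 1) = S n - S (n + 1)
  W_nonneg : ∀ k, 0 ≤ W k
  WL : W L * P = 1
  W_le : ∀ k ≤ L, W k * P ≤ ρ ^ (L - k)
  P_le : P ≤ ρ ^ L
  ren : ∀ n, S n = ∑ k ∈ range (L + 1), W k * f (n + k)

theorem geom_aux {ρ : ℝ} (h0 : 0 ≤ ρ) (h1 : ρ ≤ 1 / 4) (L : ℕ) :
    ∑ k ∈ range L, ρ ^ (L - k) ≤ 2 * ρ := by
  induction L with
  | zero => simp; exact h0
  | succ L ih =>
    rw [sum_range_succ]
    have h2 : ∑ k ∈ range L, ρ ^ (L + 1 - k) = ρ * ∑ k ∈ range L, ρ ^ (L - k) := by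
      rw [mul_sum]
      refine sum_congr rfl fun k hk => ?_
      rw [mem_range] at hk
      rw [show L + 1 - k = (L - k) + 1 by omega, pow_succ]
      ring
    rw [h2, show L + 1 - L = 1 by omega, pow_one]
    nlinarith

theorem geom_aux' {ρ : ℝ} (h0 : 0 ≤ ρ) (h1 : ρ ≤ 1 / 4) (L : ℕ) :
    ∑ k ∈ range L, ((L - k : ℕ) : ℝ) * ρ ^ (L - k) ≤ 2 * ρ := by
  induction L with
  | zero => simp; exact h0
  | succ L ih =>
    rw [sum_range_succ]
    have h2 : ∑ k ∈ range L, ((L + 1 - k : ℕ) : ℝ) * ρ ^ (L + 1 - k) =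
        ρ * (∑ k ∈ range L, ((L - k : ℕ) : ℝ) * ρ ^ (L - k) + ∑ k ∈ range L, ρ ^ (L - k)) := by
      rw [← sum_add_distrib, mul_sum]
      refine sum_congr rfl fun k hk => ?_
      rw [mem_range] at hk
      rw [show L + 1 - k = (L - k) + 1 by omega, pow_succ]
      push_cast
      ring
    rw [h2, show L + 1 - L = 1 by omega, pow_one]
    have := geom_aux h0 h1 L
    push_cast
    nlinarith

namespace Ren

variable {ρ : ℝ} (A B : Ren ρ)

/-- `⟨A, F⟩ = ∑_k W_k F(k)` -/
noncomputable def bra (F : ℕ → ℝ) : ℝ := ∑ k ∈ range (A.L + 1), A.W k * F k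

/-- the expectation -/
noncomputable def E : ℝ := A.bra fun _ => 1

theorem bra_split (F : ℕ → ℝ) : A.bra F = ∑ k ∈ range A.L, A.W k * F k + A.W A.L * F A.L := by
  unfold bra
  rw [sum_range_succ]

theorem S_anti : Antitone A.S := by
  refine antitone_nat_of_succ_le fun n => ?_
  have := A.step n
  have := A.f_nonneg (n + 1)
  linarith

theorem S_le_one (n : ℕ) : A.S n ≤ 1 := by
  have := A.S_anti (Nat.zero_le n)
  rwa [A.S0] at this

theorem f0 : A.f 0 = 0 := A.f_zero 0 A.hL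

theorem sum_f (n : ℕ) : ∑ i ∈ range (n + 1), A.f i = 1 - A.S n := by
  induction n with
  | zero => simp [A.f0, A.S0]
  | succ n ih =>
    rw [sum_range_succ, ih, A.step n]
    ring

theorem f_le_S {n : ℕ} (h : A.L ≤ n) : A.f n ≤ A.P * A.S (n - A.L) := by
  rw [A.ren (n - A.L), sum_range_succ, show n - A.L + A.L = n by omega]
  have h1 : 0 ≤ ∑ k ∈ range A.L, A.W k * A.f (n - A.L + k) :=
    sum_nonneg fun k _ => mul_nonneg (A.W_nonneg k) (A.f_nonneg _)
  have h2 : A.f n = A.P * (A.W A.L * A.f n) := by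
    rw [← mul_assoc, mul_comm A.P, A.WL, one_mul]
  nlinarith [A.hP]

theorem f_le (n : ℕ) : A.f n ≤ A.P := by
  by_cases h : A.L ≤ n
  · exact (A.f_le_S h).trans (mul_le_of_le_one_right A.hP.le (A.S_le_one _))
  · rw [A.f_zero n (by omega)]; exact A.hP.le

theorem summable_f : Summable A.f := by
  refine summable_of_sum_range_le A.f_nonneg (c := 1) fun n => ?_
  rcases Nat.eq_zero_or_pos n with h | h
  · subst h; simp
  · obtain ⟨m, rfl⟩ : ∃ m, n = m + 1 := ⟨n - 1, by omega⟩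
    rw [A.sum_f]
    linarith [A.S_nonneg m]

theorem f_tendsto : Tendsto A.f atTop (𝓝 0) := A.summable_f.tendsto_atTop_zero

theorem S_tendsto : Tendsto A.S atTop (𝓝 0) := by
  have h : A.S = fun n => ∑ k ∈ range (A.L + 1), A.W k * A.f (n + k) := by
    funext n; exact A.ren n
  rw [h]
  have : (0 : ℝ) = ∑ k ∈ range (A.L + 1), A.W k * 0 := by simp
  rw [this]
  refine tendsto_finsetSum _ fun k _ => ?_
  exact (A.f_tendsto.comp (tendsto_add_atTop_nat k)).const_mul _

theorem hasSum_f : HasSum A.f 1 := by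
  rw [(A.summable_f.hasSum_iff_tendsto_nat)]
  rw [← tendsto_add_atTop_iff_nat 1]
  have h : (fun n => ∑ i ∈ range (n + 1), A.f i) = fun n => 1 - A.S n := by
    funext n; exact A.sum_f n
  rw [h]
  simpa using A.S_tendsto.const_sub 1

theorem hasSum_f_shift {k : ℕ} (hk : k ≤ A.L) : HasSum (fun n => A.f (n + k)) 1 := by
  rw [hasSum_nat_add_iff]
  have : ∑ i ∈ range k, A.f i = 0 := by
    refine sum_eq_zero fun i hi => A.f_zero i ?_
    rw [mem_range] at hi; omega
  rw [this, add_zero]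
  exact A.hasSum_f

theorem hasSum_S : HasSum A.S A.E := by
  have h : A.S = fun n => ∑ k ∈ range (A.L + 1), A.W k * A.f (n + k) := by
    funext n; exact A.ren n
  rw [h]
  unfold E bra
  refine hasSum_sum fun k hk => ?_
  rw [mem_range] at hk
  exact (A.hasSum_f_shift (by omega)).mul_left _

theorem sum_W_lt (h0 : 0 ≤ ρ) (h1 : ρ ≤ 1 / 4) : (∑ k ∈ range A.L, A.W k) * A.P ≤ 2 * ρ := by
  rw [sum_mul]
  refine le_trans (sum_le_sum fun k hk => A.W_le k ?_) (geom_aux h0 h1 A.L)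
  rw [mem_range] at hk; omega

theorem sum_W_lt' (h0 : 0 ≤ ρ) (h1 : ρ ≤ 1 / 4) :
    (∑ k ∈ range A.L, ((A.L - k : ℕ) : ℝ) * A.W k) * A.P ≤ 2 * ρ := by
  rw [sum_mul]
  refine le_trans (sum_le_sum fun k hk => ?_) (geom_aux' h0 h1 A.L)
  rw [mem_range] at hk
  rw [mul_assoc]
  exact mul_le_mul_of_nonneg_left (A.W_le k (by omega)) (by positivity)

theorem E_le (h0 : 0 ≤ ρ) (h1 : ρ ≤ 1 / 4) : A.E * A.P ≤ 1 + 2 * ρ := by
  unfold E
  rw [bra_split, add_mul]
  simp only [mul_one]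
  rw [A.WL]
  linarith [A.sum_W_lt h0 h1]

theorem W_le_E : A.W A.L ≤ A.E := by
  unfold E
  rw [bra_split]
  simp only [mul_one]
  linarith [sum_nonneg (s := range A.L) fun k _ => A.W_nonneg k]

theorem one_le_EP : 1 ≤ A.E * A.P := by
  rw [← A.WL]
  exact mul_le_mul_of_nonneg_right A.W_le_E A.hP.le

theorem E_pos : 0 < A.E := by
  by_contra h
  push Not at h
  have := A.one_le_EP
  nlinarith [A.hP]

theorem S_ge (n : ℕ) : 1 - n * A.P ≤ A.S n := by
  have h := A.sum_f n
  rw [sum_range_succ', A.f0, add_zero] at h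
  have h2 : ∑ i ∈ range n, A.f (i + 1) ≤ ∑ _i ∈ range n, A.P := sum_le_sum fun i _ => A.f_le _
  rw [sum_const, card_range, nsmul_eq_mul] at h2
  linarith

theorem f_ge (h0 : 0 ≤ ρ) (h1 : ρ ≤ 1 / 4) {n : ℕ} (h : A.L ≤ n) :
    A.P * (A.S (n - A.L) - 2 * ρ) ≤ A.f n := by
  have h2 := A.ren (n - A.L)
  rw [sum_range_succ, show n - A.L + A.L = n by omega] at h2
  have h3 : (∑ k ∈ range A.L, A.W k * A.f (n - A.L + k)) ≤ (∑ k ∈ range A.L, A.W k) * A.P := by
    rw [sum_mul]
    exact sum_le_sum fun k _ => mul_le_mul_of_nonneg_left (A.f_le _) (A.W_nonneg k)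
  have h4 := A.sum_W_lt h0 h1
  have h5 : A.P * (A.W A.L * A.f n) = A.f n := by
    rw [← mul_assoc, mul_comm A.P, A.WL, one_mul]
  have h6 : A.S (n - A.L) - 2 * ρ ≤ A.W A.L * A.f n := by linarith
  calc A.P * (A.S (n - A.L) - 2 * ρ) ≤ A.P * (A.W A.L * A.f n) :=
        mul_le_mul_of_nonneg_left h6 A.hP.le
    _ = A.f n := h5

theorem f_half (h0 : 0 ≤ ρ) (h1 : ρ ≤ 1 / 16) {n : ℕ} (h : A.L ≤ n) (h2 : n * A.P ≤ 3 / 8) :
    A.P / 2 ≤ A.f n := by
  have h3 := A.f_ge h0 (by linarith) h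
  have h4 := A.S_ge (n - A.L)
  have h5 : ((n - A.L : ℕ) : ℝ) * A.P ≤ n * A.P := by
    apply mul_le_mul_of_nonneg_right _ A.hP.le
    exact_mod_cast Nat.sub_le n A.L
  have h6 : 1 / 2 ≤ A.S (n - A.L) - 2 * ρ := by linarith
  nlinarith [A.hP]

/-- the total variation of `f` -/
theorem summable_df : Summable fun n => |A.f (n + 1) - A.f n| := by
  have h : Summable fun n => A.f (n + 1) + A.f n :=
    ((summable_nat_add_iff 1).2 A.summable_f).add A.summable_f
  refine Summable.of_nonneg_of_le (fun n => abs_nonneg _) (fun n => ?_) h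
  rw [abs_le]
  constructor <;> linarith [A.f_nonneg n, A.f_nonneg (n + 1)]

noncomputable def TV : ℝ := ∑' n, |A.f (n + 1) - A.f n|

theorem TV_le (h0 : 0 ≤ ρ) (h1 : ρ ≤ 1 / 8) : A.TV ≤ 3 * A.P := by
  have hsum := A.summable_df
  have hnn : ∀ n, 0 ≤ |A.f (n + 1) - A.f n| := fun n => abs_nonneg _
  have hTV0 : 0 ≤ A.TV := tsum_nonneg hnn
  -- the increments beyond `L`
  have hterm : ∀ n, |A.f (n + A.L + 1) - A.f (n + A.L)| ≤ A.P * (A.S n - A.S (n + 1)) +
      ∑ k ∈ range A.L, A.W k * A.P * |A.f (n + k + 1) - A.f (n + k)| := by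
    intro n
    have e1 := A.ren n
    have e2 := A.ren (n + 1)
    rw [sum_range_succ] at e1 e2
    have h5 : ∀ x : ℝ, A.P * (A.W A.L * x) = x := by
      intro x
      rw [← mul_assoc, mul_comm A.P, A.WL, one_mul]
    have e3 : A.f (n + A.L + 1) - A.f (n + A.L) = -(A.P * (A.S n - A.S (n + 1))) -
        ∑ k ∈ range A.L, A.W k * A.P * (A.f (n + k + 1) - A.f (n + k)) := by
      have e4 : ∑ k ∈ range A.L, A.W k * A.P * (A.f (n + k + 1) - A.f (n + k)) =
          A.P * (∑ k ∈ range A.L, A.W k * A.f (n + 1 + k) - ∑ k ∈ range A.L, A.W k * A.f (n + k)) := by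
        rw [← sum_sub_distrib, mul_sum]
        refine sum_congr rfl fun k _ => ?_
        rw [show n + 1 + k = n + k + 1 by ring]
        ring
      rw [e4]
      have e5 : ∑ k ∈ range A.L, A.W k * A.f (n + 1 + k) = A.S (n + 1) - A.W A.L * A.f (n + 1 + A.L) := by
        linarith
      have e6 : ∑ k ∈ range A.L, A.W k * A.f (n + k) = A.S n - A.W A.L * A.f (n + A.L) := by
        linarith
      rw [e5, e6, show n + 1 + A.L = n + A.L + 1 by ring]
      have e7 := h5 (A.f (n + A.L + 1))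
      have e8 := h5 (A.f (n + A.L))
      linear_combination -e7 + e8
    rw [e3]
    have hS : 0 ≤ A.S n - A.S (n + 1) := by
      have := A.step n
      have := A.f_nonneg (n + 1)
      linarith
    calc |-(A.P * (A.S n - A.S (n + 1))) -
        ∑ k ∈ range A.L, A.W k * A.P * (A.f (n + k + 1) - A.f (n + k))|
        ≤ |-(A.P * (A.S n - A.S (n + 1)))| +
          |∑ k ∈ range A.L, A.W k * A.P * (A.f (n + k + 1) - A.f (n + k))| := abs_sub _ _
      _ ≤ A.P * (A.S n - A.S (n + 1)) +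
          ∑ k ∈ range A.L, A.W k * A.P * |A.f (n + k + 1) - A.f (n + k)| := by
          gcongr
          · rw [abs_neg, abs_of_nonneg (mul_nonneg A.hP.le hS)]
          · refine (abs_sum_le_sum_abs _ _).trans (le_of_eq (sum_congr rfl fun k _ => ?_))
            rw [abs_mul, abs_of_nonneg (mul_nonneg (A.W_nonneg k) A.hP.le)]
  -- split off the first `L` increments
  have hsplit : A.TV = ∑ n ∈ range A.L, |A.f (n + 1) - A.f n| +
      ∑' n, |A.f (n + A.L + 1) - A.f (n + A.L)| := by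
    unfold TV
    rw [← hsum.sum_add_tsum_nat_add A.L]
  have hfirst : ∑ n ∈ range A.L, |A.f (n + 1) - A.f n| ≤ A.P := by
    obtain ⟨M, hM⟩ : ∃ M, A.L = M + 1 := ⟨A.L - 1, by have := A.hL; omega⟩
    rw [hM, sum_range_succ]
    have z : ∑ n ∈ range M, |A.f (n + 1) - A.f n| = 0 := by
      refine sum_eq_zero fun n hn => ?_
      rw [mem_range] at hn
      rw [A.f_zero (n + 1) (by omega), A.f_zero n (by omega), sub_zero, abs_zero]
    rw [z, zero_add, A.f_zero M (by omega), sub_zero, abs_of_nonneg (A.f_nonneg _)]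
    exact A.f_le _
  have hSd : HasSum (fun n => A.S n - A.S (n + 1)) 1 := by
    have : (fun n => A.S n - A.S (n + 1)) = fun n => A.f (n + 1) := by
      funext n; rw [A.step]
    rw [this]
    exact A.hasSum_f_shift A.hL
  have hk : ∀ k, Summable fun n => |A.f (n + k + 1) - A.f (n + k)| := fun k =>
    (summable_nat_add_iff (f := fun n => |A.f (n + 1) - A.f n|) k).2 hsum
  have hkle : ∀ k, ∑' n, |A.f (n + k + 1) - A.f (n + k)| ≤ A.TV := by
    intro k
    unfold TV
    rw [← hsum.sum_add_tsum_nat_add k]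
    linarith [sum_nonneg (s := range k) fun n _ => hnn n]
  have hrest : ∑' n, |A.f (n + A.L + 1) - A.f (n + A.L)| ≤ A.P * 1 +
      ∑ k ∈ range A.L, A.W k * A.P * ∑' n, |A.f (n + k + 1) - A.f (n + k)| := by
    have hs : HasSum (fun n => A.P * (A.S n - A.S (n + 1)) +
        ∑ k ∈ range A.L, A.W k * A.P * |A.f (n + k + 1) - A.f (n + k)|)
        (A.P * 1 + ∑ k ∈ range A.L, A.W k * A.P * ∑' n, |A.f (n + k + 1) - A.f (n + k)|) := by
      refine (hSd.mul_left _).add (hasSum_sum fun k _ => ?_)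
      exact ((hk k).hasSum).mul_left _
    rw [← hs.tsum_eq]
    exact Summable.tsum_le_tsum hterm (hk A.L) hs.summable
  have hlast : ∑ k ∈ range A.L, A.W k * A.P * ∑' n, |A.f (n + k + 1) - A.f (n + k)| ≤
      2 * ρ * A.TV := by
    calc ∑ k ∈ range A.L, A.W k * A.P * ∑' n, |A.f (n + k + 1) - A.f (n + k)|
        ≤ ∑ k ∈ range A.L, A.W k * A.P * A.TV :=
          sum_le_sum fun k _ => mul_le_mul_of_nonneg_left (hkle k) (mul_nonneg (A.W_nonneg k) A.hP.le)
      _ = (∑ k ∈ range A.L, A.W k) * A.P * A.TV := by rw [sum_mul, sum_mul]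
      _ ≤ 2 * ρ * A.TV := mul_le_mul_of_nonneg_right (A.sum_W_lt h0 (by linarith)) hTV0
  have h9 : A.TV ≤ 2 * A.P + 2 * ρ * A.TV := by linarith
  have h10 : 2 * ρ * A.TV ≤ 1 / 4 * A.TV := mul_le_mul_of_nonneg_right (by linarith) hTV0
  linarith [A.hP]

/-- the convolution of the two laws -/
noncomputable def g (N : ℕ) : ℝ := ∑ j ∈ range (N + 1), B.f j * A.f (N - j)

theorem g_nonneg (N : ℕ) : 0 ≤ A.g B N :=
  sum_nonneg fun _ _ => mul_nonneg (B.f_nonneg _) (A.f_nonneg _)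

theorem g_comm (N : ℕ) : A.g B N = B.g A N := by
  unfold g
  rw [← sum_range_reflect]
  refine sum_congr rfl fun j hj => ?_
  rw [mem_range] at hj
  rw [show N + 1 - 1 - j = N - j by omega, show N - (N - j) = j by omega, mul_comm]

/-- `f_B * S_A` in terms of the convolution of the laws -/
theorem conv_S (n : ℕ) : ∑ j ∈ range (n + 1), B.f j * A.S (n - j) =
    A.bra fun k => A.g B (n + k) := by
  have h1 : ∀ k ∈ range (A.L + 1), A.W k * A.g B (n + k) =
      ∑ j ∈ range (n + 1), B.f j * (A.W k * A.f (n - j + k)) := by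
    intro k hk
    rw [mem_range] at hk
    unfold g
    rw [show n + k + 1 = (n + 1) + k by ring, sum_range_add]
    have h2 : ∑ x ∈ range k, B.f (n + 1 + x) * A.f (n + k - (n + 1 + x)) = 0 := by
      refine sum_eq_zero fun x hx => ?_
      rw [mem_range] at hx
      rw [A.f_zero _ (by omega), mul_zero]
    rw [h2, add_zero, mul_sum]
    refine sum_congr rfl fun j hj => ?_
    rw [mem_range] at hj
    rw [show n + k - j = n - j + k by omega]
    ring
  unfold bra
  rw [sum_congr rfl h1, sum_comm]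
  refine sum_congr rfl fun j _ => ?_
  rw [A.ren (n - j), mul_sum]

theorem conv_step (n : ℕ) : ∑ j ∈ range (n + 1), B.f j * A.S (n - j) =
    (∑ j ∈ range n, B.S j * A.S (n - 1 - j)) - (∑ j ∈ range (n + 1), B.S j * A.S (n - j)) +
      A.S n := by
  rw [sum_range_succ', B.f0, zero_mul, add_zero]
  have h1 : ∑ k ∈ range n, B.f (k + 1) * A.S (n - (k + 1)) =
      ∑ j ∈ range n, B.S j * A.S (n - 1 - j) - ∑ k ∈ range n, B.S (k + 1) * A.S (n - (k + 1)) := by
    rw [← sum_sub_distrib]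
    refine sum_congr rfl fun j _ => ?_
    rw [B.step, show n - 1 - j = n - (j + 1) by omega]
    ring
  rw [h1, sum_range_succ' (fun j => B.S j * A.S (n - j)) n, B.S0, one_mul, Nat.sub_zero]
  ring

theorem conv_symm (n : ℕ) : ∑ j ∈ range (n + 1), B.S j * A.S (n - j) =
    ∑ j ∈ range (n + 1), A.S j * B.S (n - j) := by
  rw [← sum_range_reflect]
  refine sum_congr rfl fun j hj => ?_
  rw [mem_range] at hj
  rw [show n + 1 - 1 - j = n - j by omega, show n - (n - j) = j by omega, mul_comm]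

theorem conv_symm' (n : ℕ) : ∑ j ∈ range n, B.S j * A.S (n - 1 - j) =
    ∑ j ∈ range n, A.S j * B.S (n - 1 - j) := by
  rcases Nat.eq_zero_or_pos n with h | h
  · subst h; simp
  · obtain ⟨m, rfl⟩ : ∃ m, n = m + 1 := ⟨n - 1, by omega⟩
    rw [Nat.add_sub_cancel]
    exact A.conv_symm B m

/-- the difference of the two tails -/
theorem diff_S (n : ℕ) : A.S n - B.S n =
    (A.bra fun k => A.g B (n + k)) - B.bra fun k => A.g B (n + k) := by
  have h1 := A.conv_S B n
  have h2 := B.conv_S A n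
  have h3 := A.conv_step B n
  have h4 := B.conv_step A n
  have h5 := A.conv_symm B n
  have h6 := A.conv_symm' B n
  have h7 : (B.bra fun k => A.g B (n + k)) = B.bra fun k => B.g A (n + k) := by
    congr 1; funext k; exact A.g_comm B _
  rw [h7, ← h1, ← h2, h3, h4, h5, h6]
  ring

end Ren

end Pool.Agent.Q289.Race
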